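import Pool.Agent.Results.MP_7ecff9_co.DijoinTriangle

/-!
# Additivity of the inversion number under dijoins

If `L` and `R` are finite oriented graphs with `inv L = 1` and `inv R = r` even, then
`inv (L → R) = r + 1`. So the pair `(1, 4)` refutes the conjecture that for all positive `l, r` with
`l ≥ 3` or `r ≥ 3` there are `L`, `R` with `inv L = l`, `inv R = r` and `inv (L → R) < l + r`.

The proof: if `inv (L → R) ≤ r`, complete `L → R` to a tournament which is made acyclic by the same
inversions. The part of `L` contains a directed triangle, so the tournament minimum rank of the part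
`R'` of `R` is at most `r - 1` (it goes up by one when a triangle is added). A symmetric matrix over
the field with two elements of odd rank `k` has a nonzero diagonal entry, and then it is a sum of `k`
matrices `x xᵀ`; with zero diagonal, `k + 1` of them suffice. So `r - 1` inversions make `R'`
acyclic.
-/

set_option autoImplicit false

namespace Pool.Agent.W5h20.EvenAdditiveResult

open Matrix
open Pool.Agent.Results.MP_7ecff9_co.DijoinTriangle (Tourn Transitive diffGraph InM tmr C3 tmr_le
  tmr_spec inM_iff rank_add_le' rank_drop' asymm' tri)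

/-- An oriented graph on the vertex type `V`: there is no pair of opposite arcs `uv`, `vu` (and, by
the case `u = v`, no loop). -/
structure OrGraph (V : Type) where
  /-- `arc u v` means that `uv` is an arc. -/
  arc : V → V → Prop
  /-- there is no pair of opposite arcs, and no loop -/
  asymm : ∀ u v, arc u v → ¬ arc v u

variable {V W : Type}

/-- Inverting `X`: reverse every arc with both ends in `X`. -/
def invert (D : OrGraph V) (X : Set V) : OrGraph V where
  arc := fun u v => (¬ (u ∈ X ∧ v ∈ X) ∧ D.arc u v) ∨ ((u ∈ X ∧ v ∈ X) ∧ D.arc v u)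
  asymm := by
    intro u v h
    have h1 := D.asymm u v
    have h2 := D.asymm v u
    tauto

/-- There is no directed cycle. -/
def Acyclic (D : OrGraph V) : Prop := ∀ v, ¬ Relation.TransGen D.arc v v

/-- The inversion number: the least `k` such that the successive inversion of some `k` sets makes
`D` acyclic. -/
noncomputable def inv (D : OrGraph V) : ℕ :=
  sInf {k | ∃ Xs : List (Set V), Xs.length = k ∧ Acyclic (Xs.foldl invert D)}

/-- The dijoin `L → R`. -/
def dijoin (L : OrGraph V) (R : OrGraph W) : OrGraph (V ⊕ W) where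
  arc := fun x y => match x, y with
    | Sum.inl u, Sum.inl v => L.arc u v
    | Sum.inr u, Sum.inr v => R.arc u v
    | Sum.inl _, Sum.inr _ => True
    | Sum.inr _, Sum.inl _ => False
  asymm := by
    rintro (u | u) (v | v) h
    · exact L.asymm u v h
    · exact fun h2 => h2
    · exact absurd h id
    · exact R.asymm u v h

/-! ### Parities -/

lemma two (x : ZMod 2) : x = 0 ∨ x = 1 := by
  revert x
  decide

/-- the parity of the number of sets in the list containing both `u` and `v` -/
noncomputable def par (Xs : List (Set V)) : Matrix V V (ZMod 2) := by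
  classical
  exact fun u v => (Xs.map (fun X => if u ∈ X ∧ v ∈ X then (1 : ZMod 2) else 0)).sum

lemma par_nil (u v : V) : par ([] : List (Set V)) u v = 0 := by simp [par]

lemma par_cons_mem {X : Set V} {Xs : List (Set V)} {u v : V} (h : u ∈ X ∧ v ∈ X) :
    par (X :: Xs) u v = 1 + par Xs u v := by
  simp [par, h]

lemma par_cons_not {X : Set V} {Xs : List (Set V)} {u v : V} (h : ¬ (u ∈ X ∧ v ∈ X)) :
    par (X :: Xs) u v = par Xs u v := by
  simp only [par, List.map_cons, List.sum_cons, if_neg h, zero_add]

lemma par_symm (Xs : List (Set V)) (u v : V) : par Xs u v = par Xs v u := by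
  induction Xs with
  | nil => rw [par_nil, par_nil]
  | cons X Xs ih =>
    by_cases h : u ∈ X ∧ v ∈ X
    · rw [par_cons_mem h, par_cons_mem h.symm, ih]
    · rw [par_cons_not h, par_cons_not (fun h2 => h h2.symm), ih]

lemma e11 : (1 : ZMod 2) + 1 = 0 := by decide

lemma foldl_arc (Xs : List (Set V)) : ∀ (D : OrGraph V) (u v : V),
    (Xs.foldl invert D).arc u v ↔
      (par Xs u v = 0 ∧ D.arc u v) ∨ (par Xs u v = 1 ∧ D.arc v u) := by
  induction Xs with
  | nil =>
    intro D u v
    simp [par_nil]
  | cons X Xs ih =>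
    intro D u v
    rw [List.foldl_cons, ih]
    have e01 : (0 : ZMod 2) ≠ 1 := by decide
    have e10 : (1 : ZMod 2) ≠ 0 := by decide
    by_cases h : u ∈ X ∧ v ∈ X
    · rw [par_cons_mem h]
      have h' : v ∈ X ∧ u ∈ X := ⟨h.2, h.1⟩
      rcases two (par Xs u v) with h2 | h2
      · simp [h2, invert, h]
      · simp [h2, invert, h, e11]
    · rw [par_cons_not h]
      have h' : ¬ (v ∈ X ∧ u ∈ X) := fun h2 => h ⟨h2.2, h2.1⟩
      have k1 : (invert D X).arc u v ↔ D.arc u v := by
        change (¬ (u ∈ X ∧ v ∈ X) ∧ D.arc u v) ∨ ((u ∈ X ∧ v ∈ X) ∧ D.arc v u) ↔ _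
        tauto
      have k2 : (invert D X).arc v u ↔ D.arc v u := by
        change (¬ (v ∈ X ∧ u ∈ X) ∧ D.arc v u) ∨ ((v ∈ X ∧ u ∈ X) ∧ D.arc u v) ↔ _
        tauto
      rw [k1, k2]

lemma par_rank [Fintype V] (Xs : List (Set V)) : (par Xs).rank ≤ Xs.length := by
  classical
  induction Xs with
  | nil =>
    have : par ([] : List (Set V)) = 0 := by
      ext u v
      exact par_nil u v
    rw [this, Matrix.rank_zero]
    simp
  | cons X Xs ih =>
    have : par (X :: Xs) =
        par Xs + Matrix.vecMulVec (fun v => if v ∈ X then 1 else 0)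
          (fun v => if v ∈ X then 1 else 0) := by
      ext u v
      by_cases h : u ∈ X ∧ v ∈ X
      · rw [par_cons_mem h]
        simp [Matrix.vecMulVec_apply, h.1, h.2, add_comm]
      · rw [par_cons_not h]
        rcases not_and_or.1 h with h1 | h1 <;> simp [Matrix.vecMulVec_apply, h1]
    rw [this]
    refine (rank_add_le' _ _).trans ?_
    have := Matrix.rank_vecMulVec_le (fun v => if v ∈ X then (1 : ZMod 2) else 0)
      (fun v => if v ∈ X then (1 : ZMod 2) else 0)
    rw [List.length_cons]
    omega

/-! ### Sums of squares of vectors -/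

/-- `M` is the sum of the matrices `x xᵀ` over the list. -/
def IsSum (M : Matrix V V (ZMod 2)) (L : List (V → ZMod 2)) : Prop :=
  ∀ u v, M u v = (L.map (fun x => x u * x v)).sum

lemma mulVec_sq [Fintype V] (M : Matrix V V (ZMod 2)) (a k : V → ZMod 2) :
    ((M + Matrix.vecMulVec a a) *ᵥ k) = M *ᵥ k + (a ⬝ᵥ k) • a := by
  funext v
  simp only [Matrix.mulVec, dotProduct, Pi.add_apply, Pi.smul_apply, smul_eq_mul, add_mul,
    Finset.sum_add_distrib, Finset.sum_mul, Matrix.add_apply, Matrix.vecMulVec_apply]
  congr 1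
  refine Finset.sum_congr rfl fun w _ => ?_
  ring

lemma symm_dot [Fintype V] (M : Matrix V V (ZMod 2)) (hM : ∀ u v, M u v = M v u)
    (y k : V → ZMod 2) : (M *ᵥ y) ⬝ᵥ k = y ⬝ᵥ M *ᵥ k :=
  Pool.Agent.Results.MP_7ecff9_co.DijoinTriangle.symm_dot M hM y k

lemma rank_sq_lt [Fintype V] (M : Matrix V V (ZMod 2)) (hM : ∀ u v, M u v = M v u)
    (y : V → ZMod 2) (h1 : y ⬝ᵥ M *ᵥ y = 1) :
    (M + Matrix.vecMulVec (M *ᵥ y) (M *ᵥ y)).rank < M.rank := by
  refine rank_drop' M _ y ?_ h1
  intro k
  rw [mulVec_sq, symm_dot M hM]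

lemma isSum_add {M : Matrix V V (ZMod 2)} {a : V → ZMod 2} {L : List (V → ZMod 2)}
    (h : IsSum (M + Matrix.vecMulVec a a) L) : IsSum M (a :: L) := by
  intro u v
  rw [List.map_cons, List.sum_cons, ← h u v, Matrix.add_apply, Matrix.vecMulVec_apply,
    add_comm (M u v), ← add_assoc, CharTwo.add_self_eq_zero, zero_add]

lemma rank_eq_zero' [Fintype V] {M : Matrix V V (ZMod 2)} (h : M.rank = 0) : M = 0 := by
  classical
  rw [Matrix.rank, Submodule.finrank_eq_zero, LinearMap.range_eq_bot] at h
  ext u v
  have := congrFun (LinearMap.congr_fun h (Pi.single v 1)) u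
  simpa [Matrix.mulVec_single_one, Matrix.col] using this

/-- A symmetric matrix over the field with two elements with a nonzero diagonal entry is the sum
of (at most) rank many matrices `x xᵀ`. -/
lemma lempel [Fintype V] : ∀ (n : ℕ) (M : Matrix V V (ZMod 2)), (∀ u v, M u v = M v u) →
    M.rank ≤ n → (∃ v, M v v = 1) → ∃ L : List (V → ZMod 2), L.length ≤ n ∧ IsSum M L := by
  classical
  intro n
  induction n with
  | zero =>
    intro M _ hr ⟨v, hv⟩
    rw [rank_eq_zero' (Nat.le_zero.1 hr)] at hv
    simp at hv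
  | succ n ih =>
    intro M hs hr ⟨v, hv⟩
    -- the general step
    have step : ∀ y : V → ZMod 2, y ⬝ᵥ M *ᵥ y = 1 →
        (∃ u, (M + Matrix.vecMulVec (M *ᵥ y) (M *ᵥ y)) u u = 1) →
        ∃ L : List (V → ZMod 2), L.length ≤ n + 1 ∧ IsSum M L := by
      intro y hy hu
      have h1 := rank_sq_lt M hs y hy
      obtain ⟨L, hL1, hL2⟩ := ih (M + Matrix.vecMulVec (M *ᵥ y) (M *ᵥ y)) (by
        intro u w
        rw [Matrix.add_apply, Matrix.add_apply, Matrix.vecMulVec_apply, Matrix.vecMulVec_apply,
          hs u w, mul_comm]) (by omega) hu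
      exact ⟨(M *ᵥ y) :: L, by simpa using hL1, isSum_add hL2⟩
    have col : ∀ w u, (M *ᵥ Pi.single w 1) u = M u w := by
      intro w u
      rw [Matrix.mulVec_single_one]
      rfl
    have quad : ∀ w w', (Pi.single w 1 : V → ZMod 2) ⬝ᵥ M *ᵥ Pi.single w' 1 = M w w' := by
      intro w w'
      rw [single_one_dotProduct, col]
    -- first choice
    by_cases h1 : ∃ u, (M + Matrix.vecMulVec (M *ᵥ Pi.single v 1) (M *ᵥ Pi.single v 1)) u u = 1
    · exact step _ (by rw [quad, hv]) h1
    push Not at h1
    have hdiag : ∀ u, M u u = M u v := by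
      intro u
      have := (two _).resolve_right (h1 u)
      rw [Matrix.add_apply, Matrix.vecMulVec_apply, col] at this
      rcases two (M u u) with h2 | h2 <;> rcases two (M u v) with h3 | h3
      · rw [h2, h3]
      · rw [h2, h3] at this; simp at this
      · rw [h2, h3] at this; simp at this
      · rw [h2, h3]
    by_cases h2 : ∀ u w, (M + Matrix.vecMulVec (M *ᵥ Pi.single v 1) (M *ᵥ Pi.single v 1)) u w = 0
    · refine ⟨[M *ᵥ Pi.single v 1], by simp, isSum_add ?_⟩
      intro u w
      rw [h2]
      simp
    push Not at h2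
    obtain ⟨u, w, huw⟩ := h2
    have huw1 := (two _).resolve_left huw
    rw [Matrix.add_apply, Matrix.vecMulVec_apply, col, col] at huw1
    rcases two (M w v) with h3 | h3
    · -- `y = e_v + e_w`
      rw [h3, mul_zero, add_zero] at huw1
      refine step (Pi.single v 1 + Pi.single w 1) ?_ ⟨u, ?_⟩
      · rw [Matrix.mulVec_add, add_dotProduct, dotProduct_add, dotProduct_add, quad, quad, quad,
          quad, hv, hs v w, h3, hdiag w, h3]
        simp
      · rw [Matrix.add_apply, Matrix.vecMulVec_apply, Matrix.mulVec_add, Pi.add_apply, col, col,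
          hdiag u, huw1]
        rcases two (M u v) with h4 | h4 <;> rw [h4] <;> decide
    · -- `y = e_w`
      rw [h3, mul_one] at huw1
      refine step (Pi.single w 1) ?_ ⟨u, ?_⟩
      · rw [quad, hdiag w, h3]
      · rw [Matrix.add_apply, Matrix.vecMulVec_apply, col, hdiag u]
        rcases two (M u v) with h4 | h4 <;> rcases two (M u w) with h5 | h5 <;>
          rw [h4, h5] at huw1 ⊢ <;> revert huw1 <;> decide

/-- A symmetric matrix over the field with two elements is the sum of at most `rank + 1` matrices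
`x xᵀ`. -/
lemma lempel' [Fintype V] (M : Matrix V V (ZMod 2)) (hs : ∀ u v, M u v = M v u) :
    ∃ L : List (V → ZMod 2), L.length ≤ M.rank + 1 ∧ IsSum M L := by
  classical
  by_cases h1 : ∃ v, M v v = 1
  · obtain ⟨L, h2, h3⟩ := lempel M.rank M hs le_rfl h1
    exact ⟨L, by omega, h3⟩
  push Not at h1
  by_cases h2 : ∀ u w, M u w = 0
  · refine ⟨[], by simp, ?_⟩
    intro u w
    rw [h2]
    simp
  push Not at h2
  obtain ⟨u, w, huw⟩ := h2
  have huw1 := (two _).resolve_left huw
  set a : V → ZMod 2 := M *ᵥ Pi.single w 1 with ha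
  have col : ∀ u, a u = M u w := by
    intro u
    rw [ha, Matrix.mulVec_single_one]
    rfl
  have hr : (M + Matrix.vecMulVec a a).rank ≤ M.rank := by
    have : M + Matrix.vecMulVec a a = M * (1 + Matrix.vecMulVec (Pi.single w 1) a) := by
      rw [Matrix.mul_add, Matrix.mul_one, Matrix.mul_vecMulVec]
    rw [this]
    exact Matrix.rank_mul_le_left _ _
  obtain ⟨L, h3, h4⟩ := lempel M.rank (M + Matrix.vecMulVec a a) (by
      intro u w
      rw [Matrix.add_apply, Matrix.add_apply, Matrix.vecMulVec_apply, Matrix.vecMulVec_apply,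
        hs u w, mul_comm]) hr ⟨u, by
      rw [Matrix.add_apply, Matrix.vecMulVec_apply, col, huw1, (two _).resolve_right (h1 u)]
      decide⟩
  exact ⟨a :: L, by simpa using h3, isSum_add h4⟩

/-- An alternating matrix over the field with two elements has even rank. -/
lemma even_rank [Fintype V] : ∀ (n : ℕ) (M : Matrix V V (ZMod 2)), (∀ u v, M u v = M v u) →
    (∀ v, M v v = 0) → M.rank ≤ n → Even M.rank := by
  classical
  intro n
  induction n using Nat.strong_induction_on with
  | _ n ih =>
  intro M hs hd hr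
  by_cases h2 : ∀ u w, M u w = 0
  · have : M = 0 := by
      ext u w
      exact h2 u w
    rw [this, Matrix.rank_zero]
    exact ⟨0, rfl⟩
  push Not at h2
  obtain ⟨u, w, huw⟩ := h2
  have huw1 := (two _).resolve_left huw
  have hwu1 : M w u = 1 := by rw [hs, huw1]
  set a : V → ZMod 2 := M *ᵥ Pi.single u 1 with ha
  set b : V → ZMod 2 := M *ᵥ Pi.single w 1 with hb
  have cola : ∀ v, a v = M v u := by
    intro v
    rw [ha, Matrix.mulVec_single_one]
    rfl
  have colb : ∀ v, b v = M v w := by
    intro v
    rw [hb, Matrix.mulVec_single_one]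
    rfl
  set N : Matrix V V (ZMod 2) := M + (Matrix.vecMulVec a b + Matrix.vecMulVec b a) with hN
  have hNk : ∀ k, N *ᵥ k = M *ᵥ k + (b ⬝ᵥ k) • a + (a ⬝ᵥ k) • b := by
    intro k
    funext v
    simp only [hN, Matrix.mulVec, dotProduct, Pi.add_apply, Pi.smul_apply, smul_eq_mul, add_mul,
      Finset.sum_add_distrib, Finset.sum_mul, Matrix.add_apply, Matrix.vecMulVec_apply]
    rw [add_assoc]
    congr 1
    congr 1
    · refine Finset.sum_congr rfl fun w _ => ?_
      ring
    · refine Finset.sum_congr rfl fun w _ => ?_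
      ring
  have hda : ∀ k, a ⬝ᵥ k = (M *ᵥ k) u := by
    intro k
    rw [ha, symm_dot M hs, single_one_dotProduct]
  have hdb : ∀ k, b ⬝ᵥ k = (M *ᵥ k) w := by
    intro k
    rw [hb, symm_dot M hs, single_one_dotProduct]
  -- the kernels
  set K0 := LinearMap.ker M.mulVecLin with hK0
  set K1 := K0 ⊔ Submodule.span (ZMod 2) {Pi.single u 1} with hK1
  set K2 := LinearMap.ker N.mulVecLin with hK2
  have hyN : (Pi.single u 1 : V → ZMod 2) ∈ K2 := by
    rw [hK2, LinearMap.mem_ker, Matrix.mulVecLin_apply, hNk, hda, hdb, ← ha, cola, cola, hd,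
      hwu1]
    funext v
    simp [CharTwo.add_self_eq_zero]
  have hzN : (Pi.single w 1 : V → ZMod 2) ∈ K2 := by
    rw [hK2, LinearMap.mem_ker, Matrix.mulVecLin_apply, hNk, hda, hdb, ← hb, colb, colb, hd,
      huw1]
    funext v
    simp [CharTwo.add_self_eq_zero]
  have hK01 : K0 < K1 := by
    refine lt_of_le_of_ne le_sup_left ?_
    intro h
    have : (Pi.single u 1 : V → ZMod 2) ∈ K0 := by
      rw [h, hK1]
      exact Submodule.mem_sup_right (Submodule.mem_span_singleton_self _)
    rw [hK0, LinearMap.mem_ker, Matrix.mulVecLin_apply, ← ha] at this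
    have := congrFun this w
    rw [cola, hwu1] at this
    simp at this
  have hK12 : K1 < K2 := by
    refine lt_of_le_of_ne ?_ ?_
    · refine sup_le ?_ ?_
      · intro k hk
        rw [hK0, LinearMap.mem_ker, Matrix.mulVecLin_apply] at hk
        rw [hK2, LinearMap.mem_ker, Matrix.mulVecLin_apply, hNk, hda, hdb, hk]
        simp
      · rw [Submodule.span_singleton_le_iff_mem]
        exact hyN
    · intro h
      rw [← h, hK1, Submodule.mem_sup] at hzN
      obtain ⟨k, hk, z, hz, hkz⟩ := hzN
      rw [hK0, LinearMap.mem_ker, Matrix.mulVecLin_apply] at hk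
      rw [Submodule.mem_span_singleton] at hz
      obtain ⟨c, rfl⟩ := hz
      have := congrArg (fun x => (M *ᵥ x) u) hkz
      simp only [Matrix.mulVec_add, Matrix.mulVec_smul, hk, ← ha, ← hb, Pi.add_apply,
        Pi.smul_apply, colb, cola, hd, huw1] at this
      simp at this
  have f1 := Submodule.finrank_lt_finrank_of_lt hK01
  have f2 := Submodule.finrank_lt_finrank_of_lt hK12
  have g1 := LinearMap.finrank_range_add_finrank_ker M.mulVecLin
  have g2 := LinearMap.finrank_range_add_finrank_ker N.mulVecLin
  have r1 : N.rank + 2 ≤ M.rank := by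
    rw [← hK0] at g1
    rw [← hK2] at g2
    rw [Matrix.rank, Matrix.rank]
    omega
  have r2 : M.rank ≤ N.rank + 2 := by
    have : M = N + (Matrix.vecMulVec a b + Matrix.vecMulVec b a) := by
      ext i j
      simp only [hN, Matrix.add_apply]
      rw [add_assoc, CharTwo.add_self_eq_zero, add_zero]
    have h3 : M.rank ≤ N.rank + (Matrix.vecMulVec a b + Matrix.vecMulVec b a).rank := by
      conv_lhs => rw [this]
      exact rank_add_le' _ _
    have h4 := rank_add_le' (Matrix.vecMulVec a b) (Matrix.vecMulVec b a)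
    have h5 := Matrix.rank_vecMulVec_le a b
    have h6 := Matrix.rank_vecMulVec_le b a
    omega
  have r3 : M.rank = N.rank + 2 := le_antisymm r2 r1
  have hev : Even N.rank := by
    refine ih (n - 2) (by omega) N ?_ ?_ (by omega)
    · intro i j
      simp only [hN, Matrix.add_apply, Matrix.vecMulVec_apply, hs i j]
      ring
    · intro i
      simp only [hN, Matrix.add_apply, Matrix.vecMulVec_apply, hd i]
      rw [mul_comm (b i), CharTwo.add_self_eq_zero, add_zero]
  rw [r3]
  exact hev.add (by decide)

/-! ### From matrices to inversions -/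

lemma par_of_isSum (L : List (V → ZMod 2)) (u v : V) :
    par (L.map (fun x => {w | x w = 1})) u v = (L.map (fun x => x u * x v)).sum := by
  induction L with
  | nil => simp [par_nil]
  | cons x L ih =>
    rw [List.map_cons, List.map_cons, List.sum_cons, ← ih]
    by_cases h : u ∈ {w | x w = 1} ∧ v ∈ {w | x w = 1}
    · rw [par_cons_mem h]
      rw [Set.mem_ofPred_eq, Set.mem_ofPred_eq] at h
      rw [h.1, h.2, one_mul]
    · rw [par_cons_not h]
      rw [Set.mem_ofPred_eq, Set.mem_ofPred_eq] at h
      rcases two (x u) with h1 | h1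
      · rw [h1, zero_mul, zero_add]
      · rcases two (x v) with h2 | h2
        · rw [h2, mul_zero, zero_add]
        · exact absurd ⟨h1, h2⟩ h

/-- If `D` is contained in a tournament, and the differences between this tournament and a
transitive one are given by a sum of `k` matrices, then `k` inversions make `D` acyclic. -/
lemma acyclic_of {D : OrGraph V} {D' T : Tourn V} (hD : ∀ u v, D.arc u v → D'.arc u v)
    (hT : Transitive T) {M : Matrix V V (ZMod 2)} (hM : InM (diffGraph D' T) M)
    {L : List (V → ZMod 2)} (hL : IsSum M L) :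
    Acyclic ((L.map (fun x => {w | x w = 1})).foldl invert D) := by
  have hsub : ∀ u v, ((L.map (fun x => {w | x w = 1})).foldl invert D).arc u v → T.arc u v := by
    intro u v h
    rw [foldl_arc, par_of_isSum, ← hL u v] at h
    rw [inM_iff] at hM
    rcases h with ⟨h1, h2⟩ | ⟨h1, h2⟩
    · have h3 := hM u v (hD u v h2)
      rcases tri T u v with h4 | h4 | h4
      · exact h4
      · subst h4
        exact absurd h2 (D.asymm _ _ h2)
      · rw [(h3.1 h4).1] at h1
        exact absurd h1 (by decide)
    · have h3 := hM v u (hD v u h2)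
      rcases tri T u v with h4 | h4 | h4
      · exact h4
      · subst h4
        exact absurd h2 (D.asymm _ _ h2)
      · rw [(h3.2 h4).2] at h1
        exact absurd h1 (by decide)
  intro v hv
  exact hT v (Relation.TransGen.mono hsub _ _ hv)

lemma inv_le {D : OrGraph V} {Xs : List (Set V)} (h : Acyclic (Xs.foldl invert D)) :
    inv D ≤ Xs.length :=
  Nat.sInf_le ⟨Xs, rfl, h⟩

/-- A tournament `D'` containing `R` whose minimum rank is less than the even number `r` is made
acyclic by less than `r` inversions, and so is `R`. -/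
lemma inv_lt_of_tmr [Fintype V] {R : OrGraph V} {D' : Tourn V}
    (hD : ∀ u v, R.arc u v → D'.arc u v) {r : ℕ} (hr : Even r) (h : tmr D' + 1 ≤ r) :
    inv R + 1 ≤ r := by
  obtain ⟨T, hT, M, hM, hrk⟩ := tmr_spec D'
  by_cases h1 : tmr D' + 2 ≤ r
  · obtain ⟨L, h2, h3⟩ := lempel' M hM.symm
    have := inv_le (acyclic_of hD hT hM h3)
    rw [List.length_map] at this
    omega
  · have h2 : M.rank + 1 = r := by omega
    have h3 : ∃ v, M v v = 1 := by
      by_contra hcon
      push Not at hcon
      have h4 := even_rank M.rank M hM.symm (fun v => (two _).resolve_right (hcon v)) le_rfl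
      rw [← h2] at hr
      exact (Nat.even_add_one.1 hr) h4
    obtain ⟨L, h4, h5⟩ := lempel M.rank M hM.symm le_rfl h3
    have := inv_le (acyclic_of hD hT hM h5)
    rw [List.length_map] at this
    omega

/-! ### From inversions to matrices -/

lemma exists_lin [Finite V] {D : OrGraph V} (h : Acyclic D) :
    ∃ T : Tourn V, Transitive T ∧ ∀ u v, D.arc u v → T.arc u v := by
  classical
  let r : V → V → Prop := Relation.ReflTransGen D.arc
  have : IsPartialOrder V r :=
    { refl := fun a => Relation.ReflTransGen.refl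
      trans := fun a b c h1 h2 => Relation.ReflTransGen.trans h1 h2
      antisymm := fun a b h1 h2 => by
        by_contra hne
        rcases Relation.reflTransGen_iff_eq_or_transGen.1 h1 with h3 | h3
        · exact hne h3.symm
        · exact h a (h3.trans_left h2) }
  obtain ⟨s, hs, hrs⟩ := extend_partialOrder r
  refine ⟨⟨fun u v => s u v ∧ u ≠ v, fun v h => h.2 rfl, fun u v hne => ?_⟩, ?_, ?_⟩
  · constructor
    · rintro ⟨h1, _⟩ ⟨h2, _⟩
      exact hne (hs.antisymm _ _ h1 h2)
    · intro h1
      refine ⟨?_, hne⟩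
      rcases hs.total u v with h2 | h2
      · exact h2
      · exact absurd ⟨h2, hne.symm⟩ h1
  · apply Pool.Agent.Results.MP_7ecff9_co.DijoinTriangle.transitive_of_trans
    rintro u v w ⟨h1, h2⟩ ⟨h3, h4⟩
    refine ⟨hs.trans _ _ _ h1 h3, ?_⟩
    rintro rfl
    exact h2 (hs.antisymm _ _ h1 h3)
  · intro u v huv
    refine ⟨hrs _ _ (Relation.ReflTransGen.single huv), ?_⟩
    rintro rfl
    exact D.asymm _ _ huv huv

/-- An oriented graph made acyclic by some inversions is contained in a tournament made acyclic by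
the same inversions. -/
lemma complete [Finite V] {D : OrGraph V} {Xs : List (Set V)} (h : Acyclic (Xs.foldl invert D)) :
    ∃ D' T : Tourn V, (∀ u v, D.arc u v → D'.arc u v) ∧ Transitive T ∧
      InM (diffGraph D' T) (par Xs) := by
  obtain ⟨T, hT, hsub⟩ := exists_lin h
  have e01 : (0 : ZMod 2) ≠ 1 := by decide
  let D' : Tourn V :=
    { arc := fun u v => (par Xs u v = 0 ∧ T.arc u v) ∨ (par Xs u v = 1 ∧ T.arc v u)
      loopless := fun v h => by
        rcases h with h | h <;> exact T.loopless v h.2
      total := fun u v hne => by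
        have h1 := T.total u v hne
        rw [par_symm Xs v u]
        rcases two (par Xs u v) with h2 | h2
        · simp [h2, h1]
        · simp [h2, h1] }
  refine ⟨D', T, ?_, hT, ?_⟩
  · intro u v huv
    rcases two (par Xs u v) with h2 | h2
    · exact Or.inl ⟨h2, hsub u v ((foldl_arc Xs D u v).2 (Or.inl ⟨h2, huv⟩))⟩
    · exact Or.inr ⟨h2, hsub v u ((foldl_arc Xs D v u).2 (Or.inr ⟨by rw [par_symm, h2], huv⟩))⟩
  · rw [inM_iff]
    intro u v huv
    have key : ∀ u v, D'.arc u v → (T.arc v u → par Xs u v = 1) ∧ (T.arc u v → par Xs u v = 0) := by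
      rintro u v (⟨h1, h2⟩ | ⟨h1, h2⟩)
      · exact ⟨fun h3 => absurd h3 (asymm' T h2), fun _ => h1⟩
      · exact ⟨fun _ => h1, fun h3 => absurd h3 (asymm' T h2)⟩
    obtain ⟨k1, k2⟩ := key u v huv
    exact ⟨fun h3 => ⟨k1 h3, by rw [par_symm]; exact k1 h3⟩,
      fun h3 => ⟨k2 h3, by rw [par_symm]; exact k2 h3⟩⟩

/-- the inversion number is attained -/
lemma inv_spec [Finite V] (D : OrGraph V) :
    ∃ Xs : List (Set V), Xs.length = inv D ∧ Acyclic (Xs.foldl invert D) := by
  classical
  have := Fintype.ofFinite V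
  have : {k | ∃ Xs : List (Set V), Xs.length = k ∧ Acyclic (Xs.foldl invert D)}.Nonempty := by
    let e := Fintype.equivFin V
    let T : Tourn V := ⟨fun u v => e u < e v, fun v => lt_irrefl _, fun u v h => by
      constructor
      · intro h1
        exact not_lt.2 h1.le
      · intro h1
        exact lt_of_le_of_ne (not_lt.1 h1) (fun h2 => h (e.injective h2))⟩
    have hT : Transitive T := by
      apply Pool.Agent.Results.MP_7ecff9_co.DijoinTriangle.transitive_of_trans
      intro u v w h1 h2
      exact lt_trans h1 h2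
    let D' : Tourn V :=
      { arc := fun u v => D.arc u v ∨ (¬ D.arc v u ∧ T.arc u v)
        loopless := fun v h => by
          rcases h with h | h
          · exact D.asymm v v h h
          · exact T.loopless v h.2
        total := fun u v hne => by
          have h1 := T.total u v hne
          have h2 := D.asymm u v
          have h3 := D.asymm v u
          tauto }
    obtain ⟨M, hM⟩ := Pool.Agent.Results.MP_7ecff9_co.DijoinTriangle.exists_inM D' T
    obtain ⟨L, _, hL⟩ := lempel' M hM.symm
    exact ⟨_, _, rfl, acyclic_of (fun u v h => Or.inl h) hT hM hL⟩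
  exact Nat.sInf_mem this

/-- a tournament with a directed cycle has a directed triangle -/
lemma exists_triangle {D' : Tourn V} (h : ¬ Transitive D') :
    ∃ f : Fin 3 → V, Function.Injective f ∧ ∀ i j, C3.arc i j ↔ D'.arc (f i) (f j) := by
  have h1 : ¬ ∀ u v w, D'.arc u v → D'.arc v w → D'.arc u w :=
    fun h2 => h (Pool.Agent.Results.MP_7ecff9_co.DijoinTriangle.transitive_of_trans h2)
  push Not at h1
  obtain ⟨u, v, w, huv, hvw, huw⟩ := h1
  have hne : u ≠ w := by
    rintro rfl
    exact asymm' D' huv hvw
  have hwu : D'.arc w u := by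
    rcases tri D' u w with h2 | h2 | h2
    · exact absurd h2 huw
    · exact absurd h2 hne
    · exact h2
  have a1 := asymm' D' huv
  have a2 := asymm' D' hvw
  have a3 := asymm' D' hwu
  have l1 := D'.loopless u
  have l2 := D'.loopless v
  have l3 := D'.loopless w
  have hiff : ∀ i j, C3.arc i j ↔ D'.arc (![u, v, w] i) (![u, v, w] j) := by
    intro i j
    change j = i + 1 ↔ _
    fin_cases i <;> fin_cases j <;> simp [huv, hvw, hwu, a1, a2, a3, l1, l2, l3]
  refine ⟨![u, v, w], ?_, hiff⟩
  intro i j hij
  by_contra hne'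
  have h5 : C3.arc i j ∨ C3.arc j i := by
    rcases tri C3 i j with h6 | h6 | h6
    · exact Or.inl h6
    · exact absurd h6 hne'
    · exact Or.inr h6
  rcases h5 with h6 | h6
  · rw [hiff, hij] at h6
    exact D'.loopless _ h6
  · rw [hiff, hij] at h6
    exact D'.loopless _ h6

/-- pulling back a tournament along an injective map -/
def pull (T : Tourn W) (f : V → W) (hf : Function.Injective f) : Tourn V where
  arc := fun u v => T.arc (f u) (f v)
  loopless := fun v => T.loopless _
  total := fun u v h => T.total _ _ (fun h2 => h (hf h2))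

lemma pull_transitive {T : Tourn W} (hT : Transitive T) (f : V → W) (hf : Function.Injective f) :
    Transitive (pull T f hf) := by
  apply Pool.Agent.Results.MP_7ecff9_co.DijoinTriangle.transitive_of_trans
  intro u v w h1 h2
  exact hT.trans h1 h2

lemma inM_pull {D T : Tourn W} {M : Matrix W W (ZMod 2)} (hM : InM (diffGraph D T) M)
    (f : V → W) (hf : Function.Injective f) :
    InM (diffGraph (pull D f hf) (pull T f hf)) (M.submatrix f f) := by
  rw [inM_iff] at hM ⊢
  intro u v huv
  exact hM _ _ huv

lemma Tourn_ext {D E : Tourn V} (h : ∀ u v, D.arc u v ↔ E.arc u v) : D = E := by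
  cases D
  cases E
  congr
  funext u v
  exact propext (h u v)

lemma not_transitive_of_inv {L : OrGraph V} {D' : Tourn V} (hL : inv L = 1)
    (hD : ∀ u v, L.arc u v → D'.arc u v) : ¬ Transitive D' := by
  intro h
  have h1 : Acyclic (([] : List (Set V)).foldl invert L) := by
    intro v hv
    exact h v (Relation.TransGen.mono hD _ _ hv)
  have := inv_le h1
  rw [hL] at this
  simp at this

/-- lower bound for `L → R` -/
lemma lower1 [Finite V] [Finite W] (L : OrGraph V) (R : OrGraph W) (hL : inv L = 1)
    (hR : Even (inv R)) : inv R + 1 ≤ inv (dijoin L R) := by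
  classical
  have := Fintype.ofFinite V
  have := Fintype.ofFinite W
  by_contra hcon
  obtain ⟨Xs, hXs, hac⟩ := inv_spec (dijoin L R)
  obtain ⟨D', T, hD, hT, hM⟩ := complete hac
  have hnt : ¬ Transitive (pull D' (Sum.inl : V → V ⊕ W) Sum.inl_injective) :=
    not_transitive_of_inv hL (fun u v h => hD (Sum.inl u) (Sum.inl v) h)
  obtain ⟨f, hf, hfa⟩ := exists_triangle hnt
  let R' : Tourn W := pull D' Sum.inr Sum.inr_injective
  have hR' : ∀ u v, R.arc u v → R'.arc u v := fun u v h => hD (Sum.inr u) (Sum.inr v) h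
  let g : Fin 3 ⊕ W → V ⊕ W := Sum.map f id
  have hg : Function.Injective g := hf.sumMap Function.injective_id
  have hdij : pull D' g hg =
      Pool.Agent.Results.MP_7ecff9_co.DijoinTriangle.dijoin C3 R' := by
    apply Tourn_ext
    have hx : ∀ i w, D'.arc (Sum.inl (f i)) (Sum.inr w) := fun i w => hD _ _ trivial
    rintro (i | u) (j | v)
    · exact (hfa i j).symm
    · exact ⟨fun _ => trivial, fun _ => hx i v⟩
    · exact ⟨fun h => asymm' D' (hx j u) h, fun h => absurd h id⟩
    · exact Iff.rfl
  have h1 := tmr_le (pull_transitive hT g hg) (inM_pull hM g hg)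
  rw [hdij, ← (Pool.Agent.Results.MP_7ecff9_co.DijoinTriangle.result W R').2] at h1
  have h2 : ((par Xs).submatrix g g).rank ≤ Xs.length :=
    (rank_submatrix_le _ g g).trans (par_rank Xs)
  have h3 := inv_lt_of_tmr hR' hR (by omega)
  omega

/-- lower bound for `R → L` -/
lemma lower2 [Finite V] [Finite W] (L : OrGraph V) (R : OrGraph W) (hL : inv L = 1)
    (hR : Even (inv R)) : inv R + 1 ≤ inv (dijoin R L) := by
  classical
  have := Fintype.ofFinite V
  have := Fintype.ofFinite W
  by_contra hcon
  obtain ⟨Xs, hXs, hac⟩ := inv_spec (dijoin R L)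
  obtain ⟨D', T, hD, hT, hM⟩ := complete hac
  have hnt : ¬ Transitive (pull D' (Sum.inr : V → W ⊕ V) Sum.inr_injective) :=
    not_transitive_of_inv hL (fun u v h => hD (Sum.inr u) (Sum.inr v) h)
  obtain ⟨f, hf, hfa⟩ := exists_triangle hnt
  let R' : Tourn W := pull D' Sum.inl Sum.inl_injective
  have hR' : ∀ u v, R.arc u v → R'.arc u v := fun u v h => hD (Sum.inl u) (Sum.inl v) h
  let g : W ⊕ Fin 3 → W ⊕ V := Sum.map id f
  have hg : Function.Injective g := Function.injective_id.sumMap hf
  have hdij : pull D' g hg =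
      Pool.Agent.Results.MP_7ecff9_co.DijoinTriangle.dijoin R' C3 := by
    apply Tourn_ext
    have hx : ∀ w i, D'.arc (Sum.inl w) (Sum.inr (f i)) := fun w i => hD _ _ trivial
    rintro (i | u) (j | v)
    · exact Iff.rfl
    · exact ⟨fun _ => trivial, fun _ => hx i v⟩
    · exact ⟨fun h => asymm' D' (hx j u) h, fun h => absurd h id⟩
    · exact (hfa u v).symm
  have h1 := tmr_le (pull_transitive hT g hg) (inM_pull hM g hg)
  rw [hdij, (Pool.Agent.Results.MP_7ecff9_co.DijoinTriangle.result W R').1] at h1
  have h2 : ((par Xs).submatrix g g).rank ≤ Xs.length :=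
    (rank_submatrix_le _ g g).trans (par_rank Xs)
  have h3 := inv_lt_of_tmr hR' hR (by omega)
  omega

/-! ### The upper bound -/

lemma par_append (Xs Ys : List (Set V)) (u v : V) :
    par (Xs ++ Ys) u v = par Xs u v + par Ys u v := by
  simp [par]

lemma par_image_inl (Xs : List (Set V)) :
    (∀ u v : V, par (Xs.map (fun X => (Sum.inl '' X : Set (V ⊕ W)))) (Sum.inl u) (Sum.inl v) =
      par Xs u v) ∧
    (∀ (x : V ⊕ W) (w : W), par (Xs.map (fun X => (Sum.inl '' X : Set (V ⊕ W)))) x (Sum.inr w) = 0)
      := by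
  constructor
  · intro u v
    simp only [par, List.map_map, Function.comp_def]
    congr 1
    apply List.map_congr_left
    intro X _
    have h : ((Sum.inl u : V ⊕ W) ∈ (Sum.inl '' X : Set (V ⊕ W)) ∧
        (Sum.inl v : V ⊕ W) ∈ (Sum.inl '' X : Set (V ⊕ W))) ↔ (u ∈ X ∧ v ∈ X) := by
      rw [Sum.inl_injective.mem_set_image, Sum.inl_injective.mem_set_image]
    by_cases h2 : u ∈ X ∧ v ∈ X
    · rw [if_pos h2, if_pos (h.2 h2)]
    · rw [if_neg h2, if_neg (fun h3 => h2 (h.1 h3))]
  · intro x w
    simp [par, Function.comp_def]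

lemma par_image_inr (Xs : List (Set W)) :
    (∀ u v : W, par (Xs.map (fun X => (Sum.inr '' X : Set (V ⊕ W)))) (Sum.inr u) (Sum.inr v) =
      par Xs u v) ∧
    (∀ (x : V ⊕ W) (w : V), par (Xs.map (fun X => (Sum.inr '' X : Set (V ⊕ W)))) x (Sum.inl w) = 0)
      := by
  constructor
  · intro u v
    simp only [par, List.map_map, Function.comp_def]
    congr 1
    apply List.map_congr_left
    intro X _
    have h : ((Sum.inr u : V ⊕ W) ∈ (Sum.inr '' X : Set (V ⊕ W)) ∧
        (Sum.inr v : V ⊕ W) ∈ (Sum.inr '' X : Set (V ⊕ W))) ↔ (u ∈ X ∧ v ∈ X) := by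
      rw [Sum.inr_injective.mem_set_image, Sum.inr_injective.mem_set_image]
    by_cases h2 : u ∈ X ∧ v ∈ X
    · rw [if_pos h2, if_pos (h.2 h2)]
    · rw [if_neg h2, if_neg (fun h3 => h2 (h.1 h3))]
  · intro x w
    simp [par, Function.comp_def]

lemma upper [Finite V] [Finite W] (L : OrGraph V) (R : OrGraph W) :
    inv (dijoin L R) ≤ inv L + inv R := by
  obtain ⟨Xs, hXs, hX⟩ := inv_spec L
  obtain ⟨Ys, hYs, hY⟩ := inv_spec R
  obtain ⟨T1, hT1, h1⟩ := exists_lin hX
  obtain ⟨T2, hT2, h2⟩ := exists_lin hY
  have hT : Transitive (Pool.Agent.Results.MP_7ecff9_co.DijoinTriangle.dijoin T1 T2) := by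
    apply Pool.Agent.Results.MP_7ecff9_co.DijoinTriangle.transitive_of_trans
    rintro (u | u) (v | v) (w | w) k1 k2
    · exact hT1.trans k1 k2
    · trivial
    · exact absurd k2 id
    · trivial
    · exact absurd k1 id
    · exact absurd k1 id
    · exact absurd k2 id
    · exact hT2.trans k1 k2
  have hac : Acyclic ((Xs.map (fun X => (Sum.inl '' X : Set (V ⊕ W))) ++
      Ys.map (fun X => (Sum.inr '' X : Set (V ⊕ W)))).foldl invert (dijoin L R)) := by
    intro v hv
    refine hT v (Relation.TransGen.mono ?_ _ _ hv)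
    intro x y hxy
    rw [foldl_arc, par_append] at hxy
    obtain ⟨p1, p2⟩ := par_image_inl (V := V) (W := W) Xs
    obtain ⟨q1, q2⟩ := par_image_inr (V := V) (W := W) Ys
    rcases x with x | x <;> rcases y with y | y
    · rw [p1, q2, add_zero, ] at hxy
      exact h1 x y ((foldl_arc Xs L x y).2 hxy)
    · trivial
    · rw [par_symm (Xs.map _), p2, q2, add_zero] at hxy
      rcases hxy with h | h
      · exact absurd h.2 id
      · exact absurd h.1 (by decide)
    · rw [p2, q1, zero_add] at hxy
      exact h2 x y ((foldl_arc Ys R x y).2 hxy)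
  have := inv_le hac
  rw [List.length_append, List.length_map, List.length_map] at this
  omega

/-! ### Every number is an inversion number -/

/-- a tournament as an oriented graph -/
def toOr (D : Tourn V) : OrGraph V := ⟨D.arc, fun _ _ h => asymm' D h⟩

lemma tmr_le_inv [Fintype V] (D : Tourn V) : tmr D ≤ inv (toOr D) := by
  obtain ⟨Xs, hXs, hac⟩ := inv_spec (toOr D)
  obtain ⟨D', T, hD, hT, hM⟩ := complete hac
  have h1 : D' = D := by
    apply Tourn_ext
    intro u v
    refine ⟨fun h => ?_, fun h => hD u v h⟩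
    rcases tri D u v with h2 | h2 | h2
    · exact h2
    · subst h2
      exact absurd h (D'.loopless _)
    · exact absurd (hD v u h2) (asymm' D' h)
  rw [h1] at hM
  rw [← hXs]
  exact (tmr_le hT hM).trans (par_rank Xs)

lemma inv_C3 : inv (toOr C3) ≤ 1 := by
  have h : Acyclic (([{0, 2}] : List (Set (Fin 3))).foldl invert (toOr C3)) := by
    intro v hv
    have hlt : ∀ u v : Fin 3,
        (([{0, 2}] : List (Set (Fin 3))).foldl invert (toOr C3)).arc u v → u < v := by
      intro u v h
      rcases h with ⟨h1, h2⟩ | ⟨h1, h2⟩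
      · change v = u + 1 at h2
        simp only [Set.mem_insert_iff, Set.mem_singleton_iff] at h1
        revert u v
        decide
      · change u = v + 1 at h2
        simp only [Set.mem_insert_iff, Set.mem_singleton_iff] at h1
        revert u v
        decide
    have : ∀ u v, Relation.TransGen
        (([{0, 2}] : List (Set (Fin 3))).foldl invert (toOr C3)).arc u v → u < v := by
      intro u v h
      induction h with
      | single h1 => exact hlt _ _ h1
      | tail _ h2 ih => exact lt_trans ih (hlt _ _ h2)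
    exact lt_irrefl _ (this v v hv)
  simpa using inv_le h

/-- every natural number is the inversion number of a finite tournament -/
lemma exists_inv_eq : ∀ k : ℕ, ∃ (W : Type) (_ : Fintype W) (D : Tourn W),
    tmr D = k ∧ inv (toOr D) = k := by
  intro k
  induction k with
  | zero =>
    let D : Tourn (Fin 0) := ⟨fun _ _ => False, fun _ h => h, fun u => u.elim0⟩
    have h1 : inv (toOr D) ≤ 0 := by
      have h : Acyclic (([] : List (Set (Fin 0))).foldl invert (toOr D)) := fun v => v.elim0
      simpa using inv_le h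
    have h2 := tmr_le_inv D
    exact ⟨Fin 0, inferInstance, D, by omega, by omega⟩
  | succ k ih =>
    obtain ⟨W, hW, D, h1, h2⟩ := ih
    refine ⟨Fin 3 ⊕ W, inferInstance,
      Pool.Agent.Results.MP_7ecff9_co.DijoinTriangle.dijoin C3 D, ?_, ?_⟩
    · rw [← (Pool.Agent.Results.MP_7ecff9_co.DijoinTriangle.result W D).2, h1]
    · have h3 := (Pool.Agent.Results.MP_7ecff9_co.DijoinTriangle.result W D).2
      have h4 := tmr_le_inv (Pool.Agent.Results.MP_7ecff9_co.DijoinTriangle.dijoin C3 D)
      have h5 := upper (toOr C3) (toOr D)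
      have h6 : dijoin (toOr C3) (toOr D) =
          toOr (Pool.Agent.Results.MP_7ecff9_co.DijoinTriangle.dijoin C3 D) := by
        unfold dijoin toOr
        congr
      rw [h6] at h5
      have h7 := inv_C3
      omega

/-- **Main result.** If `L` and `R` are finite oriented graphs, `inv L = 1` and `inv R` is even,
then `inv (L → R) = inv (R → L) = inv R + 1`. Hence it is false that for all positive `l, r` with
`l ≥ 3` or `r ≥ 3` there are `L`, `R` with `inv L = l`, `inv R = r` and `inv (L → R) < l + r`.
(Every natural number is an inversion number, so that this is not vacuous.) -/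
theorem result :
    (¬ ∀ l r : ℕ, 1 ≤ l → 1 ≤ r → (3 ≤ l ∨ 3 ≤ r) →
      ∃ (V W : Type) (_ : Finite V) (_ : Finite W) (L : OrGraph V) (R : OrGraph W),
        inv L = l ∧ inv R = r ∧ inv (dijoin L R) < l + r) ∧
    (∀ (V W : Type) (_ : Finite V) (_ : Finite W) (L : OrGraph V) (R : OrGraph W),
      inv L = 1 → Even (inv R) →
        inv (dijoin L R) = inv L + inv R ∧ inv (dijoin R L) = inv R + inv L) ∧
    ∀ r : ℕ, ∃ (W : Type) (_ : Finite W) (R : OrGraph W), inv R = r := by
  have key : ∀ (V W : Type) (_ : Finite V) (_ : Finite W) (L : OrGraph V) (R : OrGraph W),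
      inv L = 1 → Even (inv R) →
        inv (dijoin L R) = inv L + inv R ∧ inv (dijoin R L) = inv R + inv L := by
    intro V W _ _ L R hL hR
    have h1 := lower1 L R hL hR
    have h2 := lower2 L R hL hR
    have h3 := upper L R
    have h4 := upper R L
    omega
  refine ⟨?_, key, ?_⟩
  · intro h
    obtain ⟨V, W, hV, hW, L, R, hL, hR, hlt⟩ := h 1 4 le_rfl (by norm_num) (Or.inr (by norm_num))
    have := (key V W hV hW L R hL (by rw [hR]; decide)).1
    omega
  · intro r
    obtain ⟨W, hW, D, _, h⟩ := exists_inv_eq r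
    exact ⟨W, inferInstance, toOr D, h⟩

end Pool.Agent.W5h20.EvenAdditiveResult
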