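import Mathlib

set_option autoImplicit false

/-!
# A connected cubic graph with a strict domination chain

A connected cubic graph on 50 vertices with `ir = 13`, `γ = 14`, `i = 15`, `β₀ = 20`, `Γ = 21` and
`IR = 22`. It consists of three blocks on 17, 11 and 21 vertices and a vertex `49` which is joined to
one vertex (`16`, `27`, `48`) of each block. The four bounds for all sets of vertices are obtained
from bounds in the blocks, which are checked by a search.
-/

namespace Pool.Agent.W5h20.StrictChain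

open Finset

/-! ### Definitions -/

section Defs

variable {V : Type} (G : SimpleGraph V)

/-- `w ∈ N[v]`: the vertex `w` lies in the closed neighbourhood of `v`. -/
def InN (v w : V) : Prop := w = v ∨ G.Adj v w

/-- `S` is dominating: `N[S] = V`. -/
def IsDominating (S : Finset V) : Prop := ∀ w, ∃ v ∈ S, InN G v w

/-- `S` is a minimal dominating set (under inclusion). -/
def IsMinimalDominating (S : Finset V) : Prop :=
  IsDominating G S ∧ ∀ T, T ⊂ S → ¬ IsDominating G T

/-- `S` is independent: no two of its vertices are adjacent. -/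
def IsIndependent (S : Finset V) : Prop := ∀ u ∈ S, ∀ v ∈ S, ¬ G.Adj u v

/-- `S` is a maximal independent set (under inclusion). -/
def IsMaximalIndependent (S : Finset V) : Prop :=
  IsIndependent G S ∧ ∀ T, S ⊂ T → ¬ IsIndependent G T

/-- `S` is irredundant: every `v ∈ S` has a private neighbour, that is, a vertex in `N[v]` which
does not lie in `N[u]` for any other `u ∈ S`. -/
def IsIrredundant (S : Finset V) : Prop :=
  ∀ v ∈ S, ∃ w, InN G v w ∧ ∀ u ∈ S, u ≠ v → ¬ InN G u w

/-- `S` is a maximal irredundant set (under inclusion). -/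
def IsMaximalIrredundant (S : Finset V) : Prop :=
  IsIrredundant G S ∧ ∀ T, S ⊂ T → ¬ IsIrredundant G T

/-- `ir(G)`: the minimum size of a maximal irredundant set. -/
noncomputable def ir : ℕ := sInf {k | ∃ S : Finset V, IsMaximalIrredundant G S ∧ S.card = k}

/-- `γ(G)`: the minimum size of a dominating set. -/
noncomputable def gam : ℕ := sInf {k | ∃ S : Finset V, IsDominating G S ∧ S.card = k}

/-- `i(G)`: the minimum size of a maximal independent set. -/
noncomputable def ind : ℕ := sInf {k | ∃ S : Finset V, IsMaximalIndependent G S ∧ S.card = k}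

/-- `β₀(G)`: the maximum size of an independent set. -/
noncomputable def beta : ℕ := sSup {k | ∃ S : Finset V, IsIndependent G S ∧ S.card = k}

/-- `Γ(G)`: the maximum size of a minimal dominating set. -/
noncomputable def Gam : ℕ := sSup {k | ∃ S : Finset V, IsMinimalDominating G S ∧ S.card = k}

/-- `IR(G)`: the maximum size of an irredundant set. -/
noncomputable def IR : ℕ := sSup {k | ∃ S : Finset V, IsIrredundant G S ∧ S.card = k}

end Defs

/-! ### The graph -/

/-- closed neighbourhoods as bit masks -/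
def mkL : List ℕ := [65543, 71, 15, 60, 792, 2216, 450, 736, 1360, 1680, 18176, 14368, 47104, 47104,
  115712, 61440, 562949953503233, 19267584, 1966080, 7077888, 72613888, 11141120, 39321600,
  60817408, 92405760, 180355072, 219152384, 562950188302336, 37312528384, 4026531840, 14495514624,
  8799045812224, 31138512896, 288836550656, 124554051584, 120527519744, 257698037760,
  141218524692480, 970662608896, 4123168604160, 21440476741632, 8246337208320, 85761906966528,
  30788473061376, 62672162783232, 263882790666240, 391426139488256, 457534276108288,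
  1055531162664960, 844425064415232]

/-- closed neighbourhoods as bit masks -/
def mk (a : ℕ) : ℕ := mkL.getD a 0

/-- the vertices whose closed neighbourhoods lie in `[0, i)` -/
def dmL : List ℕ := [0, 0, 0, 0, 4, 4, 12, 14, 14, 78, 222, 990, 1022, 1022, 3070, 4094, 49150,
  65535, 65535, 65535, 65535, 327679, 327679, 851967, 2949119, 3080191, 15663103, 33488895,
  134152191, 134152191, 134152191, 134152191, 671023103, 671023103, 1744764927, 6039732223,
  6308167679, 57847775231, 126567251967, 135157186559, 410035093503, 410035093503, 959790907391,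
  3158814162943, 3160961646591, 13056566296575, 30648752340991, 35046798852095, 70368609894399,
  281474842427391]

/-- the vertices whose closed neighbourhoods lie in `[0, i)` -/
def dm (a : ℕ) : ℕ := dmL.getD a 0

/-- the graph -/
def G : SimpleGraph (Fin 50) where
  Adj a b := a ≠ b ∧ (mk a).testBit b.val = true
  symm := ⟨by decide +kernel⟩
  loopless := ⟨fun a h => h.1 rfl⟩

instance : DecidableRel G.Adj := fun a b =>
  inferInstanceAs (Decidable (a ≠ b ∧ (mk a).testBit b.val = true))

/-! ### The search -/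

/-- What is searched for: sets (in an interval) which dominate `T`, in which the members in `F` have
a private neighbour in `X`, without members in `Z`, independent if `ind`. If `low` then they
have at least `bnd` elements, otherwise at most `bnd`. -/
structure Par where
  T : ℕ
  F : ℕ
  X : ℕ
  Z : ℕ
  ind : Bool
  low : Bool
  bnd : ℕ

def okB (p : Par) (k r : ℕ) : Bool := cond p.low (Nat.ble p.bnd k) (Nat.ble (Nat.add k r) p.bnd)

def chk (p : Par) (ex : ℕ) : List ℕ → Bool
  | [] => true
  | v :: L => (!(Nat.testBit p.F v) || !(Nat.beq (Nat.land (Nat.land (mk v) p.X) ex) 0)) && chk p ex L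

def dfs (p : Par) : ℕ → ℕ → List ℕ → ℕ → ℕ → ℕ → ℕ → Bool
  | 0, _, _, _, c1, _, k => okB p k 0 || !(Nat.beq (Nat.land p.T c1) p.T)
  | m + 1, i, L, S, c1, c2, k =>
    okB p k (m + 1) ||
    !(Nat.beq (Nat.land (Nat.land p.T (dm i)) c1) (Nat.land p.T (dm i))) ||
    ((Nat.testBit p.Z i || (p.ind && !(Nat.beq (Nat.land (mk i) S) 0)) ||
      !(chk p (Nat.xor (Nat.lor c1 (mk i)) (Nat.lor c2 (Nat.land c1 (mk i)))) (i :: L)) ||
      dfs p m (i + 1) (i :: L) (Nat.lor S (Nat.shiftLeft 1 i)) (Nat.lor c1 (mk i))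
        (Nat.lor c2 (Nat.land c1 (mk i))) (k + 1)) &&
     dfs p m (i + 1) L S c1 c2 k)

def pA1 : Par := ⟨65535, 0, 0, 0, false, true, 5⟩
def pA2 : Par := ⟨0, 0, 0, 0, true, false, 7⟩
def pA3 : Par := ⟨65535, 131071, 65535, 0, false, false, 7⟩
def pA4 : Par := ⟨131071, 65535, 131071, 0, false, false, 8⟩
def pB1 : Par := ⟨134086656, 0, 0, 0, false, true, 3⟩
def pB2 : Par := ⟨268304384, 0, 0, 0, false, true, 4⟩
def pB3 : Par := ⟨134086656, 0, 0, 134217728, true, true, 4⟩
def pB4 : Par := ⟨0, 0, 0, 134217728, true, false, 4⟩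
def pB5 : Par := ⟨0, 0, 0, 0, true, false, 5⟩
def pB6 : Par := ⟨134086656, 134086656, 268304384, 0, false, false, 5⟩
def pC1 : Par := ⟨281474708275200, 0, 0, 0, false, true, 5⟩
def pC2 : Par := ⟨562949684985856, 0, 0, 0, false, true, 6⟩
def pC3 : Par := ⟨0, 0, 0, 0, true, false, 8⟩
def pC4 : Par := ⟨281474708275200, 281474708275200, 562949684985856, 0, false, false, 8⟩

theorem dA1 : dfs pA1 17 0 [] 0 0 0 0 = true := by decide +kernel
theorem dA2 : dfs pA2 17 0 [] 0 0 0 0 = true := by decide +kernel
theorem dA3 : dfs pA3 17 0 [] 0 0 0 0 = true := by decide +kernel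
theorem dA4 : dfs pA4 17 0 [] 0 0 0 0 = true := by decide +kernel
theorem dB1 : dfs pB1 11 17 [] 0 0 0 0 = true := by decide +kernel
theorem dB2 : dfs pB2 11 17 [] 0 0 0 0 = true := by decide +kernel
theorem dB3 : dfs pB3 11 17 [] 0 0 0 0 = true := by decide +kernel
theorem dB4 : dfs pB4 11 17 [] 0 0 0 0 = true := by decide +kernel
theorem dB5 : dfs pB5 11 17 [] 0 0 0 0 = true := by decide +kernel
theorem dB6 : dfs pB6 11 17 [] 0 0 0 0 = true := by decide +kernel
theorem dC1 : dfs pC1 21 28 [] 0 0 0 0 = true := by decide +kernel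
theorem dC2 : dfs pC2 21 28 [] 0 0 0 0 = true := by decide +kernel
theorem dC3 : dfs pC3 21 28 [] 0 0 0 0 = true := by decide +kernel
theorem dC4 : dfs pC4 21 28 [] 0 0 0 0 = true := by decide +kernel

/-! ### Soundness of the search -/

/-- the number of members in `[a, b)` -/
def cnt (f : ℕ → Bool) (a b : ℕ) : ℕ := ((Finset.Ico a b).filter (fun j => f j = true)).card

structure Valid (p : Par) (f : ℕ → Bool) (lo hi : ℕ) : Prop where
  dom : ∀ u, p.T.testBit u = true → ∃ j, lo ≤ j ∧ j < hi ∧ f j = true ∧ (mk j).testBit u = true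
  irr : ∀ v, lo ≤ v → v < hi → f v = true → p.F.testBit v = true →
    ∃ w, (mk v).testBit w = true ∧ p.X.testBit w = true ∧
      ∀ j, lo ≤ j → j < hi → f j = true → j ≠ v → (mk j).testBit w = false
  zer : ∀ j, lo ≤ j → j < hi → p.Z.testBit j = true → f j = false
  ind : p.ind = true → ∀ j j', lo ≤ j → j < j' → j' < hi → f j = true → f j' = true →
    (mk j').testBit j = false

structure Inv (f : ℕ → Bool) (lo i : ℕ) (L : List ℕ) (S c1 c2 k : ℕ) : Prop where
  hL : ∀ v, v ∈ L ↔ lo ≤ v ∧ v < i ∧ f v = true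
  hS : ∀ v, S.testBit v = true ↔ lo ≤ v ∧ v < i ∧ f v = true
  h1 : ∀ u, c1.testBit u = true ↔ ∃ j, lo ≤ j ∧ j < i ∧ f j = true ∧ (mk j).testBit u = true
  h2 : ∀ u, c2.testBit u = true → ∃ j j', j ≠ j' ∧ lo ≤ j ∧ j < i ∧ f j = true ∧
    (mk j).testBit u = true ∧ lo ≤ j' ∧ j' < i ∧ f j' = true ∧ (mk j').testBit u = true
  hk : k = cnt f lo i

lemma land_bit (x y j : ℕ) : (Nat.land x y).testBit j = true ↔
    x.testBit j = true ∧ y.testBit j = true := by
  change (x &&& y).testBit j = true ↔ _
  rw [Nat.testBit_and, Bool.and_eq_true]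

lemma lor_bit (x y j : ℕ) : (Nat.lor x y).testBit j = true ↔
    x.testBit j = true ∨ y.testBit j = true := by
  change (x ||| y).testBit j = true ↔ _
  rw [Nat.testBit_or, Bool.or_eq_true]

lemma xor_bit (x y j : ℕ) : (Nat.xor x y).testBit j = (x.testBit j ^^ y.testBit j) := by
  change (x ^^^ y).testBit j = _
  rw [Nat.testBit_xor]

lemma shift_bit (a j : ℕ) : (Nat.shiftLeft 1 a).testBit j = true ↔ a = j := by
  have : Nat.shiftLeft 1 a = 2 ^ a := by
    change 1 <<< a = 2 ^ a
    rw [Nat.one_shiftLeft]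
  rw [this, Nat.testBit_two_pow]
  simp

lemma mk_ge {j : ℕ} (h : 50 ≤ j) : mk j = 0 := by
  unfold mk
  rw [List.getD_eq_default]
  exact h

lemma dm_check : ∀ i < 50, ∀ j < 50, i ≤ j → Nat.land (dm i) (mk j) = 0 := by decide +kernel

lemma dm_ok {i u j : ℕ} (hi : i < 50) (h : (dm i).testBit u = true)
    (h2 : (mk j).testBit u = true) : j < i := by
  by_contra hcon
  by_cases hj : j < 50
  · have h3 := dm_check i hi j hj (not_lt.1 hcon)
    have h4 := (land_bit (dm i) (mk j) u).2 ⟨h, h2⟩
    rw [h3] at h4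
    simp at h4
  · rw [mk_ge (not_lt.1 hj)] at h2
    simp at h2

lemma cnt_le {f : ℕ → Bool} {a b c : ℕ} (h : b ≤ c) : cnt f a b ≤ cnt f a c := by
  unfold cnt
  apply Finset.card_le_card
  apply Finset.filter_subset_filter
  exact Finset.Ico_subset_Ico_right h

lemma cnt_succ {f : ℕ → Bool} {a i : ℕ} (h : a ≤ i) :
    cnt f a (i + 1) = cnt f a i + (if f i = true then 1 else 0) := by
  unfold cnt
  have e : Finset.Ico a (i + 1) = insert i (Finset.Ico a i) := by
    ext x
    simp only [Finset.mem_Ico, Finset.mem_insert]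
    omega
  rw [e, Finset.filter_insert]
  split_ifs with h1
  · rw [Finset.card_insert_of_notMem]
    simp
  · rfl

lemma cnt_add_le {f : ℕ → Bool} {a i m : ℕ} (h : a ≤ i) : cnt f a (i + m) ≤ cnt f a i + m := by
  induction m with
  | zero => simp
  | succ m ih =>
    rw [← add_assoc, cnt_succ (by omega)]
    split_ifs <;> omega

lemma chk_ok {p : Par} {ex : ℕ} : ∀ L : List ℕ, (∀ v ∈ L, p.F.testBit v = true →
    ∃ w, (mk v).testBit w = true ∧ p.X.testBit w = true ∧ ex.testBit w = true) →
    chk p ex L = true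
  | [], _ => rfl
  | v :: L, h => by
    rw [chk, Bool.and_eq_true]
    refine ⟨?_, chk_ok L (fun x hx => h x (List.mem_cons_of_mem _ hx))⟩
    by_cases hF : p.F.testBit v = true
    · obtain ⟨w, h1, h2, h3⟩ := h v (List.mem_cons_self) hF
      have h4 : (Nat.land (Nat.land (mk v) p.X) ex).testBit w = true := by
        rw [land_bit, land_bit]
        exact ⟨⟨h1, h2⟩, h3⟩
      have h5 : Nat.beq (Nat.land (Nat.land (mk v) p.X) ex) 0 = false := by
        by_contra hcon
        have := Nat.eq_of_beq_eq_true (eq_true_of_ne_false hcon)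
        rw [this] at h4
        simp at h4
      rw [h5]
      simp
    · simp [hF]

lemma beq_land {T c : ℕ} (h : ∀ u, T.testBit u = true → c.testBit u = true) :
    Nat.beq (Nat.land T c) T = true := by
  have e : Nat.land T c = T := by
    refine Nat.eq_of_testBit_eq fun j => ?_
    rw [Bool.eq_iff_iff, land_bit]
    exact ⟨fun h2 => h2.1, fun h2 => ⟨h2, h j h2⟩⟩
  rw [e]
  exact Nat.beq_refl T

theorem dfs_sound (p : Par) (f : ℕ → Bool) (lo hi : ℕ) (hhi : hi < 50) (hv : Valid p f lo hi) :
    ∀ (m i : ℕ) (L : List ℕ) (S c1 c2 k : ℕ), i + m = hi → lo ≤ i → Inv f lo i L S c1 c2 k →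
      dfs p m i L S c1 c2 k = true →
      (p.low = true → p.bnd ≤ cnt f lo hi) ∧ (p.low = false → cnt f lo hi ≤ p.bnd) := by
  -- the bound
  have hok : ∀ m i k, i + m = hi → lo ≤ i → k = cnt f lo i → okB p k m = true →
      (p.low = true → p.bnd ≤ cnt f lo hi) ∧ (p.low = false → cnt f lo hi ≤ p.bnd) := by
    intro m i k him hlo hk hb
    unfold okB at hb
    have h1 : cnt f lo i ≤ cnt f lo hi := cnt_le (by omega)
    have h2 : cnt f lo hi ≤ cnt f lo i + m := by
      rw [← him]
      exact cnt_add_le hlo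
    cases hl : p.low with
    | true =>
      rw [hl, cond_true] at hb
      have := Nat.le_of_ble_eq_true hb
      exact ⟨fun _ => by omega, fun h => by simp at h⟩
    | false =>
      rw [hl, cond_false] at hb
      have : k + m ≤ p.bnd := Nat.le_of_ble_eq_true hb
      exact ⟨fun h => by simp at h, fun _ => by omega⟩
  intro m
  induction m with
  | zero =>
    intro i L S c1 c2 k him hlo hinv hd
    rw [dfs, Bool.or_eq_true] at hd
    rcases hd with hd | hd
    · exact hok 0 i k him hlo hinv.hk hd
    · exfalso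
      have : Nat.beq (Nat.land p.T c1) p.T = true := by
        apply beq_land
        intro u hu
        obtain ⟨j, h1, h2, h3, h4⟩ := hv.dom u hu
        exact (hinv.h1 u).2 ⟨j, h1, by omega, h3, h4⟩
      rw [this] at hd
      simp at hd
  | succ m ih =>
    intro i L S c1 c2 k him hlo hinv hd
    rw [dfs, Bool.or_eq_true, Bool.or_eq_true] at hd
    rcases hd with (hd | hd) | hd
    · exact hok (m + 1) i k him hlo hinv.hk hd
    · exfalso
      have : Nat.beq (Nat.land (Nat.land p.T (dm i)) c1) (Nat.land p.T (dm i)) = true := by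
        apply beq_land
        intro u hu
        rw [land_bit] at hu
        obtain ⟨j, h1, h2, h3, h4⟩ := hv.dom u hu.1
        exact (hinv.h1 u).2 ⟨j, h1, dm_ok (by omega) hu.2 h4, h3, h4⟩
      rw [this] at hd
      simp at hd
    · rw [Bool.and_eq_true] at hd
      obtain ⟨hd1, hd2⟩ := hd
      by_cases hf : f i = true
      · -- `i` is a member
        have hinv' : Inv f lo (i + 1) (i :: L) (Nat.lor S (Nat.shiftLeft 1 i)) (Nat.lor c1 (mk i))
            (Nat.lor c2 (Nat.land c1 (mk i))) (k + 1) := by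
          refine ⟨?_, ?_, ?_, ?_, ?_⟩
          · intro v
            rw [List.mem_cons, hinv.hL]
            constructor
            · rintro (rfl | h)
              · exact ⟨hlo, by omega, hf⟩
              · exact ⟨h.1, by omega, h.2.2⟩
            · rintro ⟨h1, h2, h3⟩
              by_cases h4 : v = i
              · exact Or.inl h4
              · exact Or.inr ⟨h1, by omega, h3⟩
          · intro v
            rw [lor_bit, shift_bit, hinv.hS]
            constructor
            · rintro (h | rfl)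
              · exact ⟨h.1, by omega, h.2.2⟩
              · exact ⟨hlo, by omega, hf⟩
            · rintro ⟨h1, h2, h3⟩
              by_cases h4 : v = i
              · exact Or.inr h4.symm
              · exact Or.inl ⟨h1, by omega, h3⟩
          · intro u
            rw [lor_bit, hinv.h1]
            constructor
            · rintro (⟨j, h1, h2, h3, h4⟩ | h)
              · exact ⟨j, h1, by omega, h3, h4⟩
              · exact ⟨i, hlo, by omega, hf, h⟩
            · rintro ⟨j, h1, h2, h3, h4⟩
              by_cases h5 : j = i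
              · subst h5
                exact Or.inr h4
              · exact Or.inl ⟨j, h1, by omega, h3, h4⟩
          · intro u hu
            rw [lor_bit] at hu
            rcases hu with hu | hu
            · obtain ⟨j, j', h0, h1, h2, h3, h4, h5, h6, h7, h8⟩ := hinv.h2 u hu
              exact ⟨j, j', h0, h1, by omega, h3, h4, h5, by omega, h7, h8⟩
            · rw [land_bit, hinv.h1] at hu
              obtain ⟨⟨j, h1, h2, h3, h4⟩, h5⟩ := hu
              exact ⟨j, i, by omega, h1, by omega, h3, h4, hlo, by omega, hf, h5⟩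
          · rw [cnt_succ hlo, if_pos hf, hinv.hk]
        have hZ : p.Z.testBit i = false := by
          by_contra hcon
          have := hv.zer i hlo (by omega) (by simpa using hcon)
          rw [hf] at this
          exact absurd this (by simp)
        have hI : (p.ind && !(Nat.beq (Nat.land (mk i) S) 0)) = false := by
          by_contra hcon
          have hcon2 : (p.ind && !(Nat.beq (Nat.land (mk i) S) 0)) = true := eq_true_of_ne_false hcon
          rw [Bool.and_eq_true] at hcon2
          obtain ⟨h1, h2⟩ := hcon2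
          have h3 : Nat.land (mk i) S = 0 := by
            refine Nat.eq_of_testBit_eq fun j => ?_
            rw [Nat.zero_testBit]
            by_contra h4
            have h5 : (Nat.land (mk i) S).testBit j = true := by simpa using h4
            rw [land_bit, hinv.hS] at h5
            obtain ⟨h6, h7, h8, h9⟩ := h5
            have := hv.ind h1 j i h7 h8 (by omega) h9 hf
            rw [this] at h6
            exact absurd h6 (by simp)
          rw [h3] at h2
          simp at h2
        have hC : chk p (Nat.xor (Nat.lor c1 (mk i)) (Nat.lor c2 (Nat.land c1 (mk i)))) (i :: L)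
            = true := by
          apply chk_ok
          intro v hvL hF
          rw [hinv'.hL] at hvL
          obtain ⟨w, h1, h2, h3⟩ := hv.irr v hvL.1 (by omega) hvL.2.2 hF
          refine ⟨w, h1, h2, ?_⟩
          rw [xor_bit]
          have e1 : (Nat.lor c1 (mk i)).testBit w = true :=
            (hinv'.h1 w).2 ⟨v, hvL.1, hvL.2.1, hvL.2.2, h1⟩
          have e2 : (Nat.lor c2 (Nat.land c1 (mk i))).testBit w = false := by
            by_contra hcon
            obtain ⟨j, j', g0, g1, g2, g3, g4, g5, g6, g7, g8⟩ := hinv'.h2 w (eq_true_of_ne_false hcon)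
            by_cases hj : j = v
            · have := h3 j' g5 (by omega) g7 (by omega)
              rw [this] at g8
              exact absurd g8 (by simp)
            · have := h3 j g1 (by omega) g3 hj
              rw [this] at g4
              exact absurd g4 (by simp)
          rw [e1, e2]
          rfl
        rw [hZ, hI, hC] at hd1
        exact ih (i + 1) _ _ _ _ _ (by omega) (by omega) hinv' (by simpa using hd1)
      · -- `i` is not a member
        have hinv' : Inv f lo (i + 1) L S c1 c2 k := by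
          refine ⟨?_, ?_, ?_, ?_, ?_⟩
          · intro v
            rw [hinv.hL]
            constructor
            · rintro ⟨h1, h2, h3⟩
              exact ⟨h1, by omega, h3⟩
            · rintro ⟨h1, h2, h3⟩
              refine ⟨h1, ?_, h3⟩
              by_contra h4
              have : v = i := by omega
              rw [this] at h3
              exact hf h3
          · intro v
            rw [hinv.hS]
            constructor
            · rintro ⟨h1, h2, h3⟩
              exact ⟨h1, by omega, h3⟩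
            · rintro ⟨h1, h2, h3⟩
              refine ⟨h1, ?_, h3⟩
              by_contra h4
              have : v = i := by omega
              rw [this] at h3
              exact hf h3
          · intro u
            rw [hinv.h1]
            constructor
            · rintro ⟨j, h1, h2, h3, h4⟩
              exact ⟨j, h1, by omega, h3, h4⟩
            · rintro ⟨j, h1, h2, h3, h4⟩
              refine ⟨j, h1, ?_, h3, h4⟩
              by_contra h5
              have : j = i := by omega
              rw [this] at h3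
              exact hf h3
          · intro u hu
            obtain ⟨j, j', h0, h1, h2, h3, h4, h5, h6, h7, h8⟩ := hinv.h2 u hu
            exact ⟨j, j', h0, h1, by omega, h3, h4, h5, by omega, h7, h8⟩
          · rw [cnt_succ hlo, if_neg hf, hinv.hk, add_zero]
        exact ih (i + 1) _ _ _ _ _ (by omega) (by omega) hinv' hd2

theorem sound {p : Par} {f : ℕ → Bool} {lo m : ℕ} (hm : lo + m < 50)
    (hd : dfs p m lo [] 0 0 0 0 = true) (hv : Valid p f lo (lo + m)) :
    (p.low = true → p.bnd ≤ cnt f lo (lo + m)) ∧ (p.low = false → cnt f lo (lo + m) ≤ p.bnd) := by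
  refine dfs_sound p f lo (lo + m) hm hv m lo [] 0 0 0 0 rfl le_rfl ?_ hd
  refine ⟨?_, ?_, ?_, ?_, ?_⟩
  · intro v
    simp only [List.not_mem_nil, false_iff]
    omega
  · intro v
    simp only [Nat.zero_testBit, Bool.false_eq_true, false_iff]
    omega
  · intro u
    simp only [Nat.zero_testBit, Bool.false_eq_true, false_iff]
    rintro ⟨j, h1, h2, _⟩
    omega
  · intro u hu
    simp at hu
  · simp [cnt]

/-! ### Sets of vertices -/

/-- the members as a function on numbers -/
noncomputable def mem (S : Finset (Fin 50)) (j : ℕ) : Bool := by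
  classical
  exact decide (∃ h : j < 50, (⟨j, h⟩ : Fin 50) ∈ S)

lemma mem_iff (S : Finset (Fin 50)) (v : Fin 50) : mem S v.val = true ↔ v ∈ S := by
  unfold mem
  rw [decide_eq_true_iff]
  exact ⟨fun ⟨_, h⟩ => h, fun h => ⟨v.2, h⟩⟩

lemma mem_lt {S : Finset (Fin 50)} {j : ℕ} (h : mem S j = true) : ∃ v : Fin 50, v.val = j ∧ v ∈ S := by
  unfold mem at h
  rw [decide_eq_true_iff] at h
  obtain ⟨h1, h2⟩ := h
  exact ⟨⟨j, h1⟩, rfl, h2⟩

lemma self_bit : ∀ v : Fin 50, (mk v.val).testBit v.val = true := by decide +kernel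

lemma inN_iff (v w : Fin 50) : InN G v w ↔ (mk v.val).testBit w.val = true := by
  constructor
  · rintro (rfl | h)
    · exact self_bit _
    · exact h.2
  · intro h
    by_cases h2 : w = v
    · exact Or.inl h2
    · exact Or.inr ⟨fun h3 => h2 h3.symm, h⟩

lemma mk_bound : ∀ j < 50, mk j < 2 ^ 50 := by decide +kernel

lemma bit_lt {j u : ℕ} (h : (mk j).testBit u = true) : u < 50 ∧ j < 50 := by
  by_cases hj : j < 50
  · refine ⟨?_, hj⟩
    by_contra hu
    have h1 := mk_bound j hj
    have h2 : mk j < 2 ^ u := lt_of_lt_of_le h1 (Nat.pow_le_pow_right (by norm_num) (not_lt.1 hu))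
    rw [Nat.testBit_lt_two_pow h2] at h
    simp at h
  · rw [mk_ge (not_lt.1 hj)] at h
    simp at h

lemma cnt_split {f : ℕ → Bool} {a b c : ℕ} (h1 : a ≤ b) (h2 : b ≤ c) :
    cnt f a c = cnt f a b + cnt f b c := by
  unfold cnt
  rw [← Finset.card_union_of_disjoint, ← Finset.filter_union, Finset.Ico_union_Ico_eq_Ico h1 h2]
  rw [Finset.disjoint_left]
  intro x hx hy
  rw [Finset.mem_filter, Finset.mem_Ico] at hx hy
  omega

lemma card_eq (S : Finset (Fin 50)) : S.card = cnt (mem S) 0 17 + cnt (mem S) 17 28 +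
    cnt (mem S) 28 49 + (if mem S 49 = true then 1 else 0) := by
  have h1 : S.card = cnt (mem S) 0 50 := by
    unfold cnt
    rw [← Finset.card_map Fin.valEmbedding]
    congr 1
    ext j
    rw [Finset.mem_map, Finset.mem_filter, Finset.mem_Ico]
    constructor
    · rintro ⟨v, hv, rfl⟩
      exact ⟨⟨Nat.zero_le _, v.2⟩, (mem_iff S v).2 hv⟩
    · rintro ⟨_, h⟩
      obtain ⟨v, h1, h2⟩ := mem_lt h
      exact ⟨v, h2, h1⟩
  rw [h1, cnt_split (show 0 ≤ 17 by norm_num) (show 17 ≤ 50 by norm_num),
    cnt_split (show 17 ≤ 28 by norm_num) (show 28 ≤ 50 by norm_num),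
    cnt_split (show 28 ≤ 49 by norm_num) (show 49 ≤ 50 by norm_num)]
  have h2 : cnt (mem S) 49 50 = (if mem S 49 = true then 1 else 0) := by
    rw [cnt_succ le_rfl]
    simp [cnt]
  rw [h2]
  ring

/-! ### From the graph to the blocks -/

lemma dom_block {S : Finset (Fin 50)} (hS : IsDominating G S) {T lo hi : ℕ} (hT : T < 2 ^ 50)
    (h : ∀ j < 50, mem S j = true → (j < lo ∨ hi ≤ j) → Nat.land T (mk j) = 0) :
    ∀ u, T.testBit u = true →
      ∃ j, lo ≤ j ∧ j < hi ∧ mem S j = true ∧ (mk j).testBit u = true := by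
  intro u hu
  have hu50 : u < 50 := by
    by_contra hcon
    rw [Nat.testBit_lt_two_pow (lt_of_lt_of_le hT (Nat.pow_le_pow_right (by norm_num)
      (not_lt.1 hcon)))] at hu
    simp at hu
  obtain ⟨v, hv, hvu⟩ := hS ⟨u, hu50⟩
  rw [inN_iff] at hvu
  have hm := (mem_iff S v).2 hv
  by_contra hcon
  push Not at hcon
  have h1 : v.val < lo ∨ hi ≤ v.val := by
    by_contra h2
    push Not at h2
    exact hcon v.val h2.1 h2.2 hm hvu
  have h3 := h v.val v.2 hm h1
  have h4 := (land_bit T (mk v.val) u).2 ⟨hu, hvu⟩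
  rw [h3] at h4
  simp at h4

lemma irr_block {S : Finset (Fin 50)} (hS : IsIrredundant G S) {F X lo hi : ℕ} (hhi : hi ≤ 49)
    (h : ∀ v < 50, lo ≤ v → v < hi → F.testBit v = true → mem S v = true →
      ∀ w < 50, (mk v).testBit w = true →
        X.testBit w = true ∨ (mem S 49 = true ∧ (mk 49).testBit w = true)) :
    ∀ v, lo ≤ v → v < hi → mem S v = true → F.testBit v = true →
      ∃ w, (mk v).testBit w = true ∧ X.testBit w = true ∧
        ∀ j, lo ≤ j → j < hi → mem S j = true → j ≠ v → (mk j).testBit w = false := by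
  intro v h1 h2 h3 h4
  obtain ⟨v', rfl, hv'⟩ := mem_lt h3
  obtain ⟨w, hw1, hw2⟩ := hS v' hv'
  rw [inN_iff] at hw1
  have hpriv : ∀ j, mem S j = true → j ≠ v'.val → (mk j).testBit w.val = false := by
    intro j hj hne
    obtain ⟨j', rfl, hj'⟩ := mem_lt hj
    have := hw2 j' hj' (fun h => hne (by rw [h]))
    rw [inN_iff] at this
    simpa using this
  refine ⟨w.val, hw1, ?_, fun j _ _ hj hne => hpriv j hj hne⟩
  rcases h v'.val v'.2 h1 h2 h4 h3 w.val w.2 hw1 with h5 | ⟨h5, h6⟩
  · exact h5
  · have := hpriv 49 h5 (by omega)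
    rw [this] at h6
    exact absurd h6 (by simp)

lemma ind_block {S : Finset (Fin 50)} (hS : IsIndependent G S) {j j' : ℕ} (hne : j ≠ j')
    (hj : mem S j = true) (hj' : mem S j' = true) : (mk j').testBit j = false := by
  obtain ⟨a, rfl, ha⟩ := mem_lt hj
  obtain ⟨b, rfl, hb⟩ := mem_lt hj'
  by_contra hcon
  exact hS b hb a ha ⟨fun h => hne (by rw [h]), by simpa using hcon⟩

lemma no_irr {lo hi : ℕ} {f : ℕ → Bool} {X : ℕ} : ∀ v, lo ≤ v → v < hi → f v = true →
    (0 : ℕ).testBit v = true → ∃ w, (mk v).testBit w = true ∧ X.testBit w = true ∧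
      ∀ j, lo ≤ j → j < hi → f j = true → j ≠ v → (mk j).testBit w = false := by
  intro v _ _ _ h
  simp at h

lemma no_dom {lo hi : ℕ} {f : ℕ → Bool} : ∀ u, (0 : ℕ).testBit u = true →
    ∃ j, lo ≤ j ∧ j < hi ∧ f j = true ∧ (mk j).testBit u = true := by
  intro u h
  simp at h

lemma no_zer {lo hi : ℕ} {f : ℕ → Bool} : ∀ j, lo ≤ j → j < hi → (0 : ℕ).testBit j = true →
    f j = false := by
  intro u _ _ h
  simp at h

/-! ### The domination number -/

lemma gA {S : Finset (Fin 50)} (hS : IsDominating G S) : 5 ≤ cnt (mem S) 0 17 := by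
  refine (sound (p := pA1) (lo := 0) (m := 17) (by norm_num) dA1 ⟨?_, no_irr, no_zer, ?_⟩).1 rfl
  · refine dom_block hS (by decide +kernel) ?_
    have : ∀ j < 50, (j < 0 ∨ 17 ≤ j) → Nat.land pA1.T (mk j) = 0 := by decide +kernel
    exact fun j hj _ h => this j hj h
  · intro h
    exact absurd h (by decide)

lemma gB1 {S : Finset (Fin 50)} (hS : IsDominating G S) : 3 ≤ cnt (mem S) 17 28 := by
  refine (sound (p := pB1) (lo := 17) (m := 11) (by norm_num) dB1 ⟨?_, no_irr, no_zer, ?_⟩).1 rfl
  · refine dom_block hS (by decide +kernel) ?_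
    have : ∀ j < 50, (j < 17 ∨ 28 ≤ j) → Nat.land pB1.T (mk j) = 0 := by decide +kernel
    exact fun j hj _ h => this j hj h
  · intro h
    exact absurd h (by decide)

lemma gB2 {S : Finset (Fin 50)} (hS : IsDominating G S) (h49 : mem S 49 = false) :
    4 ≤ cnt (mem S) 17 28 := by
  refine (sound (p := pB2) (lo := 17) (m := 11) (by norm_num) dB2 ⟨?_, no_irr, no_zer, ?_⟩).1 rfl
  · refine dom_block hS (by decide +kernel) ?_
    have : ∀ j < 50, j ≠ 49 → (j < 17 ∨ 28 ≤ j) → Nat.land pB2.T (mk j) = 0 := by decide +kernel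
    intro j hj hm h
    refine this j hj ?_ h
    rintro rfl
    rw [h49] at hm
    exact absurd hm (by simp)
  · intro h
    exact absurd h (by decide)

lemma gC1 {S : Finset (Fin 50)} (hS : IsDominating G S) : 5 ≤ cnt (mem S) 28 49 := by
  refine (sound (p := pC1) (lo := 28) (m := 21) (by norm_num) dC1 ⟨?_, no_irr, no_zer, ?_⟩).1 rfl
  · refine dom_block hS (by decide +kernel) ?_
    have : ∀ j < 50, (j < 28 ∨ 49 ≤ j) → Nat.land pC1.T (mk j) = 0 := by decide +kernel
    exact fun j hj _ h => this j hj h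
  · intro h
    exact absurd h (by decide)

lemma gC2 {S : Finset (Fin 50)} (hS : IsDominating G S) (h49 : mem S 49 = false) :
    6 ≤ cnt (mem S) 28 49 := by
  refine (sound (p := pC2) (lo := 28) (m := 21) (by norm_num) dC2 ⟨?_, no_irr, no_zer, ?_⟩).1 rfl
  · refine dom_block hS (by decide +kernel) ?_
    have : ∀ j < 50, j ≠ 49 → (j < 28 ∨ 49 ≤ j) → Nat.land pC2.T (mk j) = 0 := by decide +kernel
    intro j hj hm h
    refine this j hj ?_ h
    rintro rfl
    rw [h49] at hm
    exact absurd hm (by simp)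
  · intro h
    exact absurd h (by decide)

theorem gam_ge {S : Finset (Fin 50)} (hS : IsDominating G S) : 14 ≤ S.card := by
  rw [card_eq]
  have h1 := gA hS
  have h3 := gC1 hS
  by_cases h : mem S 49 = true
  · have h2 := gB1 hS
    rw [if_pos h]
    omega
  · have h2 := gB2 hS (by simpa using h)
    rw [if_neg h]
    omega

/-! ### The independent domination number -/

lemma iB {S : Finset (Fin 50)} (hS : IsDominating G S) (hI : IsIndependent G S)
    (h49 : mem S 49 = true) : 4 ≤ cnt (mem S) 17 28 := by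
  refine (sound (p := pB3) (lo := 17) (m := 11) (by norm_num) dB3 ⟨?_, no_irr, ?_, ?_⟩).1 rfl
  · refine dom_block hS (by decide +kernel) ?_
    have : ∀ j < 50, (j < 17 ∨ 28 ≤ j) → Nat.land pB3.T (mk j) = 0 := by decide +kernel
    exact fun j hj _ h => this j hj h
  · intro j h1 h2 h3
    have : ∀ j < 28, pB3.Z.testBit j = true → (mk 49).testBit j = true := by decide +kernel
    have h4 := this j h2 h3
    by_contra hcon
    have h5 := ind_block hI (j := j) (j' := 49) (by omega) (by simpa using hcon) h49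
    rw [h5] at h4
    exact absurd h4 (by simp)
  · intro _ j j' _ h1 _ h2 h3
    exact ind_block hI (by omega) h2 h3

theorem ind_ge {S : Finset (Fin 50)} (hS : IsDominating G S) (hI : IsIndependent G S) :
    15 ≤ S.card := by
  rw [card_eq]
  have h1 := gA hS
  by_cases h : mem S 49 = true
  · have h2 := iB hS hI h
    have h3 := gC1 hS
    rw [if_pos h]
    omega
  · have h2 := gB2 hS (by simpa using h)
    have h3 := gC2 hS (by simpa using h)
    rw [if_neg h]
    omega

/-! ### The independence number -/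

lemma bA {S : Finset (Fin 50)} (hI : IsIndependent G S) : cnt (mem S) 0 17 ≤ 7 := by
  refine (sound (p := pA2) (lo := 0) (m := 17) (by norm_num) dA2 ⟨no_dom, no_irr, no_zer, ?_⟩).2 rfl
  intro _ j j' _ h1 _ h2 h3
  exact ind_block hI (by omega) h2 h3

lemma bB1 {S : Finset (Fin 50)} (hI : IsIndependent G S) (h49 : mem S 49 = true) :
    cnt (mem S) 17 28 ≤ 4 := by
  refine (sound (p := pB4) (lo := 17) (m := 11) (by norm_num) dB4 ⟨no_dom, no_irr, ?_, ?_⟩).2 rfl
  · intro j h1 h2 h3
    have : ∀ j < 28, pB4.Z.testBit j = true → (mk 49).testBit j = true := by decide +kernel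
    have h4 := this j h2 h3
    by_contra hcon
    have h5 := ind_block hI (j := j) (j' := 49) (by omega) (by simpa using hcon) h49
    rw [h5] at h4
    exact absurd h4 (by simp)
  · intro _ j j' _ h1 _ h2 h3
    exact ind_block hI (by omega) h2 h3

lemma bB2 {S : Finset (Fin 50)} (hI : IsIndependent G S) : cnt (mem S) 17 28 ≤ 5 := by
  refine (sound (p := pB5) (lo := 17) (m := 11) (by norm_num) dB5
    ⟨no_dom, no_irr, no_zer, ?_⟩).2 rfl
  intro _ j j' _ h1 _ h2 h3
  exact ind_block hI (by omega) h2 h3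

lemma bC {S : Finset (Fin 50)} (hI : IsIndependent G S) : cnt (mem S) 28 49 ≤ 8 := by
  refine (sound (p := pC3) (lo := 28) (m := 21) (by norm_num) dC3
    ⟨no_dom, no_irr, no_zer, ?_⟩).2 rfl
  intro _ j j' _ h1 _ h2 h3
  exact ind_block hI (by omega) h2 h3

theorem beta_le {S : Finset (Fin 50)} (hI : IsIndependent G S) : S.card ≤ 20 := by
  rw [card_eq]
  have h1 := bA hI
  have h3 := bC hI
  by_cases h : mem S 49 = true
  · have h2 := bB1 hI h
    rw [if_pos h]
    omega
  · have h2 := bB2 hI
    rw [if_neg h]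
    omega

/-! ### The upper domination number -/

lemma uA1 {S : Finset (Fin 50)} (hS : IsDominating G S) (hI : IsIrredundant G S)
    (h49 : mem S 49 = true) : cnt (mem S) 0 17 ≤ 7 := by
  refine (sound (p := pA3) (lo := 0) (m := 17) (by norm_num) dA3 ⟨?_, ?_, no_zer, ?_⟩).2 rfl
  · refine dom_block hS (by decide +kernel) ?_
    have : ∀ j < 50, (j < 0 ∨ 17 ≤ j) → Nat.land pA3.T (mk j) = 0 := by decide +kernel
    exact fun j hj _ h => this j hj h
  · refine irr_block hI (by norm_num) ?_
    have : ∀ v < 50, ∀ w < 50, (0 ≤ v ∧ v < 17 ∧ pA3.F.testBit v = true ∧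
        (mk v).testBit w = true) → (pA3.X.testBit w = true ∨ (mk 49).testBit w = true) := by decide +kernel
    intro v h1 h2 h3 h4 _ w h5 h6
    rcases this v h1 w h5 ⟨h2, h3, h4, h6⟩ with h7 | h7
    · exact Or.inl h7
    · exact Or.inr ⟨h49, h7⟩
  · intro h
    exact absurd h (by decide)

lemma uA2 {S : Finset (Fin 50)} (hS : IsDominating G S) (hI : IsIrredundant G S)
    (h49 : mem S 49 = false) : cnt (mem S) 0 17 ≤ 8 := by
  refine (sound (p := pA4) (lo := 0) (m := 17) (by norm_num) dA4 ⟨?_, ?_, no_zer, ?_⟩).2 rfl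
  · refine dom_block hS (by decide +kernel) ?_
    have : ∀ j < 50, j ≠ 49 → (j < 0 ∨ 17 ≤ j) → Nat.land pA4.T (mk j) = 0 := by decide +kernel
    intro j hj hm h
    refine this j hj ?_ h
    rintro rfl
    rw [h49] at hm
    exact absurd hm (by simp)
  · refine irr_block hI (by norm_num) ?_
    have : ∀ v < 50, ∀ w < 50, (0 ≤ v ∧ v < 17 ∧ pA4.F.testBit v = true ∧
        (mk v).testBit w = true) → (pA4.X.testBit w = true) := by decide +kernel
    intro v h1 h2 h3 h4 _ w h5 h6
    exact Or.inl (this v h1 w h5 ⟨h2, h3, h4, h6⟩)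
  · intro h
    exact absurd h (by decide)

lemma uB {S : Finset (Fin 50)} (hS : IsDominating G S) (hI : IsIrredundant G S) :
    cnt (mem S) 17 28 ≤ 5 := by
  refine (sound (p := pB6) (lo := 17) (m := 11) (by norm_num) dB6 ⟨?_, ?_, no_zer, ?_⟩).2 rfl
  · refine dom_block hS (by decide +kernel) ?_
    have : ∀ j < 50, (j < 17 ∨ 28 ≤ j) → Nat.land pB6.T (mk j) = 0 := by decide +kernel
    exact fun j hj _ h => this j hj h
  · refine irr_block hI (by norm_num) ?_
    have : ∀ v < 50, ∀ w < 50, (17 ≤ v ∧ v < 28 ∧ pB6.F.testBit v = true ∧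
        (mk v).testBit w = true) → (pB6.X.testBit w = true) := by decide +kernel
    intro v h1 h2 h3 h4 _ w h5 h6
    exact Or.inl (this v h1 w h5 ⟨h2, h3, h4, h6⟩)
  · intro h
    exact absurd h (by decide)

lemma uC {S : Finset (Fin 50)} (hS : IsDominating G S) (hI : IsIrredundant G S) :
    cnt (mem S) 28 49 ≤ 8 := by
  refine (sound (p := pC4) (lo := 28) (m := 21) (by norm_num) dC4 ⟨?_, ?_, no_zer, ?_⟩).2 rfl
  · refine dom_block hS (by decide +kernel) ?_
    have : ∀ j < 50, (j < 28 ∨ 49 ≤ j) → Nat.land pC4.T (mk j) = 0 := by decide +kernel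
    exact fun j hj _ h => this j hj h
  · refine irr_block hI (by norm_num) ?_
    have : ∀ v < 50, ∀ w < 50, (28 ≤ v ∧ v < 49 ∧ pC4.F.testBit v = true ∧
        (mk v).testBit w = true) → (pC4.X.testBit w = true) := by decide +kernel
    intro v h1 h2 h3 h4 _ w h5 h6
    exact Or.inl (this v h1 w h5 ⟨h2, h3, h4, h6⟩)
  · intro h
    exact absurd h (by decide)

theorem Gam_le {S : Finset (Fin 50)} (hS : IsDominating G S) (hI : IsIrredundant G S) :
    S.card ≤ 21 := by
  rw [card_eq]
  have h2 := uB hS hI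
  have h3 := uC hS hI
  by_cases h : mem S 49 = true
  · have h1 := uA1 hS hI h
    rw [if_pos h]
    omega
  · have h1 := uA2 hS hI (by simpa using h)
    rw [if_neg h]
    omega

/-! ### Examples of sets -/

/-- the set of vertices with a given bit mask -/
def ofMask (m : ℕ) : Finset (Fin 50) := univ.filter (fun v => m.testBit v.val = true)

lemma mem_ofMask {m : ℕ} {v : Fin 50} : v ∈ ofMask m ↔ m.testBit v.val = true := by
  simp [ofMask]

lemma inN_symm {v w : Fin 50} (h : InN G v w) : InN G w v := by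
  rcases h with h | h
  · exact Or.inl h.symm
  · exact Or.inr h.symm

lemma two_pow_bit (a j : ℕ) : (2 ^ a).testBit j = true ↔ a = j := by
  rw [Nat.testBit_two_pow]
  simp

lemma dom_of {m : ℕ} (h : ∀ w < 50, Nat.land m (mk w) ≠ 0) : IsDominating G (ofMask m) := by
  intro w
  obtain ⟨j, hj⟩ := Nat.exists_testBit_of_ne_zero (h w.val w.2)
  rw [land_bit] at hj
  exact ⟨⟨j, (bit_lt hj.2).1⟩, mem_ofMask.2 hj.1, inN_symm ((inN_iff w _).2 hj.2)⟩

lemma irr_of {m : ℕ} (h : ∀ v < 50, m.testBit v = true →
    ∃ w < 50, (mk v).testBit w = true ∧ Nat.land m (mk w) = 2 ^ v) : IsIrredundant G (ofMask m) := by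
  intro v hv
  obtain ⟨w, hw, h1, h2⟩ := h v.val v.2 (mem_ofMask.1 hv)
  refine ⟨⟨w, hw⟩, (inN_iff v _).2 h1, ?_⟩
  intro u hu hne h3
  have h4 := (inN_iff _ _).1 (inN_symm h3)
  have h5 := (land_bit m (mk w) u.val).2 ⟨mem_ofMask.1 hu, h4⟩
  rw [h2, two_pow_bit] at h5
  exact hne (Fin.ext h5.symm)

lemma not_irr_of {m v : ℕ} (hv : v < 50) (hm : m.testBit v = true)
    (h : ∀ w < 50, (mk v).testBit w = true → Nat.land m (mk w) ≠ 2 ^ v) :
    ¬ IsIrredundant G (ofMask m) := by
  intro hI
  obtain ⟨w, h1, h2⟩ := hI ⟨v, hv⟩ (mem_ofMask.2 hm)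
  have h3 := (inN_iff _ _).1 h1
  refine h w.val w.2 h3 ?_
  refine Nat.eq_of_testBit_eq fun j => ?_
  rw [Bool.eq_iff_iff, land_bit, two_pow_bit]
  constructor
  · rintro ⟨h4, h5⟩
    have hj := (bit_lt h5).1
    by_contra hne
    refine h2 ⟨j, hj⟩ (mem_ofMask.2 h4) (fun h6 => hne (by rw [Fin.ext_iff] at h6; exact h6.symm)) ?_
    exact inN_symm ((inN_iff w ⟨j, hj⟩).2 h5)
  · rintro rfl
    exact ⟨hm, (inN_iff _ _).1 (inN_symm h1)⟩

lemma ind_of {m : ℕ} (h : ∀ v < 50, m.testBit v = true → Nat.land m (mk v) = 2 ^ v) :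
    IsIndependent G (ofMask m) := by
  intro u hu v hv huv
  have h1 := h u.val u.2 (mem_ofMask.1 hu)
  have h2 := (land_bit m (mk u.val) v.val).2 ⟨mem_ofMask.1 hv, huv.2⟩
  rw [h1, two_pow_bit] at h2
  exact huv.1 (Fin.ext h2)

lemma card_ofMask {m k : ℕ} (h : (univ.filter (fun v : Fin 50 => m.testBit v.val = true)).card = k) :
    (ofMask m).card = k := h

section General

variable {V : Type} {H : SimpleGraph V}

lemma irr_mono {S T : Finset V} (h : S ⊆ T) (hT : IsIrredundant H T) : IsIrredundant H S := by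
  intro v hv
  obtain ⟨w, h1, h2⟩ := hT v (h hv)
  exact ⟨w, h1, fun u hu hne => h2 u (h hu) hne⟩

lemma minimal_of {S : Finset V} (h1 : IsDominating H S) (h2 : IsIrredundant H S) :
    IsMinimalDominating H S := by
  refine ⟨h1, ?_⟩
  intro T hT hd
  obtain ⟨v, hv, hvT⟩ := Finset.exists_of_ssubset hT
  obtain ⟨w, _, hw⟩ := h2 v hv
  obtain ⟨u, hu, huw⟩ := hd w
  refine hw u (hT.1 hu) ?_ huw
  rintro rfl
  exact hvT hu

lemma irr_of_minimal {S : Finset V} (h : IsMinimalDominating H S) : IsIrredundant H S := by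
  classical
  intro v hv
  by_contra hcon
  push Not at hcon
  refine h.2 (S.erase v) (Finset.erase_ssubset hv) ?_
  intro w
  obtain ⟨u, hu, huw⟩ := h.1 w
  by_cases huv : u = v
  · subst huv
    obtain ⟨x, hx, hxu, hxw⟩ := hcon w huw
    exact ⟨x, Finset.mem_erase.2 ⟨hxu, hx⟩, hxw⟩
  · exact ⟨u, Finset.mem_erase.2 ⟨huv, hu⟩, huw⟩

lemma maxInd_of {S : Finset V} (h1 : IsIndependent H S) (h2 : IsDominating H S) :
    IsMaximalIndependent H S := by
  refine ⟨h1, ?_⟩
  intro T hT hI
  obtain ⟨v, hv, hvS⟩ := Finset.exists_of_ssubset hT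
  obtain ⟨u, hu, huv⟩ := h2 v
  rcases huv with rfl | huv
  · exact hvS hu
  · exact hI u (hT.1 hu) v hv huv

lemma dom_of_maxInd {S : Finset V} (h : IsMaximalIndependent H S) : IsDominating H S := by
  classical
  intro w
  by_contra hcon
  push Not at hcon
  have hw : w ∉ S := fun hw => hcon w hw (Or.inl rfl)
  refine h.2 (insert w S) (Finset.ssubset_insert hw) ?_
  intro a ha b hb hab
  rw [Finset.mem_insert] at ha hb
  rcases ha with rfl | ha
  · rcases hb with rfl | hb
    · exact H.loopless.irrefl _ hab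
    · exact hcon b hb (Or.inr hab.symm)
  · rcases hb with rfl | hb
    · exact hcon a ha (Or.inr hab)
    · exact h.1 a ha b hb hab

end General

lemma ir_example : IsMaximalIrredundant G (ofMask 600412826812422) := by
  refine ⟨irr_of (by decide +kernel), ?_⟩
  intro T hT hI
  obtain ⟨w, hw, hwS⟩ := Finset.exists_of_ssubset hT
  have hall : ∀ w < 50, (600412826812422 : ℕ).testBit w = false →
      ∃ v < 50, (Nat.lor 600412826812422 (2 ^ w)).testBit v = true ∧
        ∀ x < 50, (mk v).testBit x = true → Nat.land (Nat.lor 600412826812422 (2 ^ w)) (mk x) ≠ 2 ^ v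
      := by decide +kernel
  obtain ⟨v, hv, h1, h2⟩ := hall w.val w.2 (by
    rw [mem_ofMask] at hwS
    simpa using hwS)
  refine not_irr_of hv h1 h2 (irr_mono ?_ hI)
  intro u hu
  rw [mem_ofMask, lor_bit, two_pow_bit] at hu
  rcases hu with hu | hu
  · exact hT.1 (mem_ofMask.2 hu)
  · rw [← Fin.ext hu]
    exact hw

lemma connected : G.Connected := by
  have key : ∀ d : ℕ, ∀ v : Fin 50, ([2, 3, 3, 4, 5, 5, 4, 5, 4, 4, 3, 5, 4, 4, 2, 3, 1, 4, 4, 4, 3,
      4, 3, 3, 3, 2, 2, 1, 6, 6, 6, 5, 6, 5, 5, 5, 4, 3, 4, 5, 5, 4, 3, 4, 4, 3, 2, 2, 1, 0] :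
      List ℕ).getD v.val 0 = d → G.Reachable v 49 := by
    intro d
    induction d using Nat.strong_induction_on with
    | _ d ih =>
      intro v hv
      have hall : ∀ v : Fin 50, v = 49 ∨ ∃ u : Fin 50, G.Adj v u ∧
          ([2, 3, 3, 4, 5, 5, 4, 5, 4, 4, 3, 5, 4, 4, 2, 3, 1, 4, 4, 4, 3,
            4, 3, 3, 3, 2, 2, 1, 6, 6, 6, 5, 6, 5, 5, 5, 4, 3, 4, 5, 5, 4, 3, 4, 4, 3, 2, 2, 1, 0] :
            List ℕ).getD u.val 0 <
          ([2, 3, 3, 4, 5, 5, 4, 5, 4, 4, 3, 5, 4, 4, 2, 3, 1, 4, 4, 4, 3,
            4, 3, 3, 3, 2, 2, 1, 6, 6, 6, 5, 6, 5, 5, 5, 4, 3, 4, 5, 5, 4, 3, 4, 4, 3, 2, 2, 1, 0] :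
            List ℕ).getD v.val 0 := by decide +kernel
      rcases hall v with rfl | ⟨u, h1, h2⟩
      · exact SimpleGraph.Reachable.refl _
      · rw [hv] at h2
        exact h1.reachable.trans (ih _ h2 u rfl)
  have : Nonempty (Fin 50) := ⟨0⟩
  refine ⟨fun u v => ?_⟩
  exact (key _ u rfl).trans (key _ v rfl).symm

lemma regular : ∀ v : Fin 50, {w | G.Adj v w}.ncard = 3 := by
  intro v
  have h : ∀ v : Fin 50, (univ.filter (fun w => G.Adj v w)).card = 3 := by decide +kernel
  rw [← h v, ← Set.ncard_coe_finset]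
  congr 1
  ext w
  simp

/-- **Main result.** There is a connected cubic graph with
`ir < γ < i < β₀ < Γ < IR`. -/
theorem result : ∃ (V : Type) (_ : Finite V) (G : SimpleGraph V), G.Connected ∧
    (∀ v, {w | G.Adj v w}.ncard = 3) ∧
    ir G < gam G ∧ gam G < ind G ∧ ind G < beta G ∧ beta G < Gam G ∧ Gam G < IR G := by
  refine ⟨Fin 50, inferInstance, G, connected, regular, ?_⟩
  have hbdd : ∀ P : Finset (Fin 50) → Prop, BddAbove {k | ∃ S : Finset (Fin 50), P S ∧ S.card = k} := by
    intro P
    refine ⟨50, ?_⟩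
    rintro k ⟨S, _, rfl⟩
    exact (Finset.card_le_univ S).trans (by simp)
  have h1 : ir G ≤ 13 := Nat.sInf_le ⟨_, ir_example, card_ofMask (by decide +kernel)⟩
  have h2 : 14 ≤ gam G := by
    have hne : {k | ∃ S : Finset (Fin 50), IsDominating G S ∧ S.card = k}.Nonempty :=
      ⟨_, ofMask 600412826797098, dom_of (by decide +kernel), rfl⟩
    obtain ⟨S, hS, hc⟩ := Nat.sInf_mem hne
    unfold gam
    rw [← hc]
    exact gam_ge hS
  have h3 : gam G ≤ 14 :=
    Nat.sInf_le ⟨ofMask 600412826797098, dom_of (by decide +kernel), card_ofMask (by decide +kernel)⟩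
  have e15 : IsMaximalIndependent G (ofMask 146261237371976) :=
    maxInd_of (ind_of (by decide +kernel)) (dom_of (by decide +kernel))
  have h4 : 15 ≤ ind G := by
    have hne : {k | ∃ S : Finset (Fin 50), IsMaximalIndependent G S ∧ S.card = k}.Nonempty :=
      ⟨_, _, e15, rfl⟩
    obtain ⟨S, hS, hc⟩ := Nat.sInf_mem hne
    unfold ind
    rw [← hc]
    exact ind_ge (dom_of_maxInd hS) hS.1
  have h5 : ind G ≤ 15 := Nat.sInf_le ⟨_, e15, card_ofMask (by decide +kernel)⟩
  have h6 : 20 ≤ beta G := le_csSup (hbdd _)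
    ⟨ofMask 304191740019828, ind_of (by decide +kernel), card_ofMask (by decide +kernel)⟩
  have h7 : beta G ≤ 20 := by
    refine csSup_le ⟨_, ofMask 304191740019828, ind_of (by decide +kernel), rfl⟩ ?_
    rintro k ⟨S, hS, rfl⟩
    exact beta_le hS
  have e21 : IsMinimalDominating G (ofMask 920602230165852) :=
    minimal_of (dom_of (by decide +kernel)) (irr_of (by decide +kernel))
  have h8 : 21 ≤ Gam G := le_csSup (hbdd _) ⟨_, e21, card_ofMask (by decide +kernel)⟩
  have h9 : Gam G ≤ 21 := by
    refine csSup_le ⟨_, _, e21, rfl⟩ ?_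
    rintro k ⟨S, hS, rfl⟩
    exact Gam_le hS.1 (irr_of_minimal hS)
  have h10 : 22 ≤ IR G := le_csSup (hbdd _)
    ⟨ofMask 136452270149281, irr_of (by decide +kernel), card_ofMask (by decide +kernel)⟩
  omega

end Pool.Agent.W5h20.StrictChain
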